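import Pool.Agent.H6.KW.Window

/-!
# Windows for `ψ(z, q, a)` with the terms of the real zeros
-/

set_option autoImplicit false

open Finset Filter Topology
open H353 H353.D
open ArithmeticFunction (vonMangoldt)

namespace Pool.Agent.H6.KW

noncomputable section

variable {q : ℕ}

theorem psi_sum (q a : ℕ) (N : ℕ) :
    ∑ n ∈ Icc 1 N, aP (q := q) (a : ZMod q) n =
      (∑ n ∈ (Icc 1 N).filter (fun n => n ≡ a [MOD q]), vonMangoldt n) - N / q.totient := by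
  have h1 : ∀ n ∈ Icc 1 N, aP (q := q) (a : ZMod q) n =
      (if n ≡ a [MOD q] then vonMangoldt n else 0) - (q.totient : ℝ)⁻¹ := by
    intro n hn
    rw [mem_Icc] at hn
    unfold aP ArithmeticFunction.vonMangoldt.residueClass
    rw [if_neg (by omega)]
    congr 1
    by_cases h : n ≡ a [MOD q]
    · rw [if_pos h, Set.indicator_of_mem (show n ∈ {n : ℕ | (n : ZMod q) = a} from
        (ZMod.natCast_eq_natCast_iff n a q).2 h)]
    · rw [if_neg h, Set.indicator_of_notMem (show n ∉ {n : ℕ | (n : ZMod q) = a} from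
        fun h' => h ((ZMod.natCast_eq_natCast_iff n a q).1 h'))]
  rw [sum_congr rfl h1, sum_sub_distrib, sum_filter, sum_const, Nat.card_Icc, nsmul_eq_mul]
  simp only [add_tsub_cancel_right]
  rw [div_eq_mul_inv]

theorem aP_abs (q : ℕ) [NeZero q] (b : ZMod q) (n : ℕ) (hn : 1 ≤ n) : |aP b n| ≤ Real.log n + 1 := by
  unfold aP ArithmeticFunction.vonMangoldt.residueClass
  rw [if_neg (by omega)]
  have h1 : 0 ≤ ({n : ℕ | (n : ZMod q) = b}).indicator (fun n => vonMangoldt n) n :=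
    Set.indicator_nonneg (fun _ _ => ArithmeticFunction.vonMangoldt_nonneg) _
  have h2 : ({n : ℕ | (n : ZMod q) = b}).indicator (fun n => vonMangoldt n) n ≤ Real.log n := by
    refine (Set.indicator_le_self' (fun _ _ => ArithmeticFunction.vonMangoldt_nonneg) n).trans ?_
    exact ArithmeticFunction.vonMangoldt_le_log
  have h3 : (0:ℝ) < q.totient := by exact_mod_cast Nat.totient_pos.2 (Nat.pos_of_ne_zero (NeZero.ne q))
  have h4 : (q.totient : ℝ)⁻¹ ≤ 1 := by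
    apply inv_le_one_of_one_le₀
    exact_mod_cast Nat.totient_pos.2 (Nat.pos_of_ne_zero (NeZero.ne q))
  have h5 : 0 < (q.totient : ℝ)⁻¹ := inv_pos.2 h3
  have h6 : 0 ≤ Real.log n := Real.log_natCast_nonneg n
  rw [abs_le]
  constructor <;> linarith

variable [NeZero q]

/-- windows with the real zeros in a finite set `B` -/
theorem window_core (B : Finset ℝ) (hB : ∀ b ∈ B, 1 / 2 < b ∧ b < 1)
    (hBc : ∀ x : ℝ, 1 / 2 < x → x < 1 → Pq q (x : ℂ) = 0 → x ∈ B) {θ : ℝ}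
    (h1 : 1 / 2 < θ) (h2 : θ < 1) (S : Finset ℕ) (hS : ∀ a ∈ S, a.Coprime q) :
    ∃ A C : ℝ, 1 < A ∧ 0 < C ∧ ∀ x : ℝ, 1 ≤ x → ∀ c : ℕ → ℝ, ∃ y : ℝ, x ≤ y ∧ y ≤ A * x ∧
      ∀ z : ℝ, y ≤ z → z ≤ y + √y →
        |∑ a ∈ S, c a * ((∑ n ∈ (Icc 1 ⌊z⌋₊).filter (fun n => n ≡ a [MOD q]), vonMangoldt n) -
          (z - ∑ b ∈ B, (kap (a : ZMod q) b).re * z ^ b / b) / q.totient)| ≤
          C * (∑ a ∈ S, |c a|) * z ^ θ := by
  obtain ⟨A, hA, W, hW, hm, hb⟩ := mono_red (q := q) B hB hBc h1 h2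
  set J : ℝ := 1 + ∑ a ∈ S, ∑ b ∈ B, |(kap (q := q) (a : ZMod q) b).re| with hJ
  have hJa : ∀ a ∈ S, ∑ b ∈ B, |(kap (q := q) (a : ZMod q) b).re| ≤ J - 1 := by
    intro a ha
    rw [hJ, add_sub_cancel_left]
    exact single_le_sum (f := fun a : ℕ => ∑ b ∈ B, |(kap (q := q) (a : ZMod q) b).re|)
      (fun i _ => sum_nonneg fun _ _ => abs_nonneg _) ha
  have hJ1 : 1 ≤ J := by
    rw [hJ]
    have : 0 ≤ ∑ a ∈ S, ∑ b ∈ B, |(kap (q := q) (a : ZMod q) b).re| :=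
      sum_nonneg fun _ _ => sum_nonneg fun _ _ => abs_nonneg _
    linarith
  have hJ0 : 0 < J := by linarith
  have hφ : (1:ℝ) ≤ q.totient := by exact_mod_cast Nat.totient_pos.2 (Nat.pos_of_ne_zero (NeZero.ne q))
  have hφi : (q.totient : ℝ)⁻¹ ≤ 1 := inv_le_one_of_one_le₀ hφ
  have hφ0 : 0 < (q.totient : ℝ)⁻¹ := by positivity
  obtain ⟨C, hC, hloc⟩ := local_gen (ι := {a : ℕ // a ∈ S})
    (fun a n => J⁻¹ * ar B (a.1 : ZMod q) n) (fun a n hn => by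
      have e1 : |ar B (a.1 : ZMod q) n| ≤ J * (Real.log n + 1) := by
        unfold ar
        have h3 := aP_abs q (a.1 : ZMod q) n hn
        have h4 : |(q.totient : ℝ)⁻¹ * ∑ b ∈ B, (kap (a.1 : ZMod q) b).re * pw b n| ≤ J - 1 := by
          rw [abs_mul, abs_of_pos hφ0]
          have h5 : |∑ b ∈ B, (kap (a.1 : ZMod q) b).re * pw b n| ≤ J - 1 := by
            refine (abs_sum_le_sum_abs _ _).trans ((sum_le_sum fun b hb' => ?_).trans (hJa a.1 a.2))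
            rw [abs_mul]
            exact mul_le_of_le_one_right (abs_nonneg _) (pw_abs b (hB b hb').2.le n)
          calc (q.totient : ℝ)⁻¹ * |∑ b ∈ B, (kap (a.1 : ZMod q) b).re * pw b n| ≤ 1 * (J - 1) :=
                mul_le_mul hφi h5 (abs_nonneg _) zero_le_one
            _ = _ := one_mul _
        have h6 : 0 ≤ Real.log n := Real.log_natCast_nonneg n
        refine (abs_add_le _ _).trans ?_
        nlinarith
      rw [abs_mul, abs_of_pos (inv_pos.2 hJ0), inv_mul_le_iff₀ hJ0]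
      exact e1) hA (by linarith : A < 2 * A) h1 h2 hW hm (fun a => by
      obtain ⟨D, hD⟩ := hb (a.1 : ZMod q) ((ZMod.isUnit_iff_coprime _ _).2 (hS a.1 a.2))
      refine ⟨D, fun x hx => ?_⟩
      refine le_trans ?_ (hD x hx)
      have e1 : ∑ n ∈ Icc 1 ⌊x⌋₊, J⁻¹ * ar B (a.1 : ZMod q) n * W (x / n) =
          J⁻¹ * ∑ n ∈ Icc 1 ⌊x⌋₊, ar B (a.1 : ZMod q) n * W (x / n) := by
        rw [mul_sum]
        exact sum_congr rfl fun n _ => by ring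
      rw [e1, abs_mul, abs_of_pos (inv_pos.2 hJ0)]
      exact mul_le_of_le_one_left (abs_nonneg _) (inv_le_one_of_one_le₀ hJ1))
  refine ⟨2 * A, C * J + 2 * J, by linarith, by positivity, fun x hx c => ?_⟩
  obtain ⟨y, hy1, hy2, hy3⟩ := hloc x hx (fun a => J * c a.1)
  refine ⟨y, hy1, hy2, fun z hz1 hz2 => ?_⟩
  have hz : 1 ≤ z := by linarith
  have hz0 : 0 < z := by linarith
  have key := hy3 z hz1 hz2
  have e1 : ∀ (g : ℕ → ℝ), ∑ a : {a : ℕ // a ∈ S}, g a.1 = ∑ a ∈ S, g a :=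
    fun g => (Finset.sum_coe_sort S g)
  rw [e1 (fun a => J * c a * ∑ n ∈ Icc 1 ⌊z⌋₊, J⁻¹ * ar B (a : ZMod q) n),
    e1 (fun a => |J * c a|)] at key
  have e2 : ∑ a ∈ S, J * c a * ∑ n ∈ Icc 1 ⌊z⌋₊, J⁻¹ * ar B (a : ZMod q) n =
      ∑ a ∈ S, c a * ∑ n ∈ Icc 1 ⌊z⌋₊, ar B (a : ZMod q) n := by
    refine sum_congr rfl fun a _ => ?_
    rw [← mul_sum]
    field_simp
  have e3 : ∑ a ∈ S, |J * c a| = J * ∑ a ∈ S, |c a| := by
    rw [mul_sum]
    refine sum_congr rfl fun a _ => ?_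
    rw [abs_mul, abs_of_pos hJ0]
  rw [e2, e3] at key
  -- comparison
  have e4 : ∀ a ∈ S, |((∑ n ∈ (Icc 1 ⌊z⌋₊).filter (fun n => n ≡ a [MOD q]), vonMangoldt n) -
      (z - ∑ b ∈ B, (kap (a : ZMod q) b).re * z ^ b / b) / q.totient) -
      ∑ n ∈ Icc 1 ⌊z⌋₊, ar B (a : ZMod q) n| ≤ 2 * J := by
    intro a ha
    have f1 : ∑ n ∈ Icc 1 ⌊z⌋₊, ar B (a : ZMod q) n =
        (∑ n ∈ (Icc 1 ⌊z⌋₊).filter (fun n => n ≡ a [MOD q]), vonMangoldt n) -
          (⌊z⌋₊ : ℝ) / q.totient +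
          (q.totient : ℝ)⁻¹ * ∑ b ∈ B, (kap (a : ZMod q) b).re * ∑ n ∈ Icc 1 ⌊z⌋₊, pw b n := by
      rw [← psi_sum]
      unfold ar
      rw [sum_add_distrib, ← mul_sum, sum_comm]
      simp_rw [← mul_sum]
    have f2 : ((∑ n ∈ (Icc 1 ⌊z⌋₊).filter (fun n => n ≡ a [MOD q]), vonMangoldt n) -
      (z - ∑ b ∈ B, (kap (a : ZMod q) b).re * z ^ b / b) / q.totient) -
      ∑ n ∈ Icc 1 ⌊z⌋₊, ar B (a : ZMod q) n =
        (q.totient : ℝ)⁻¹ * (-(z - ⌊z⌋₊) - ∑ b ∈ B, (kap (a : ZMod q) b).re *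
          (∑ n ∈ Icc 1 ⌊z⌋₊, pw b n - z ^ b / b)) := by
      rw [f1]
      simp_rw [mul_sub (kap (a : ZMod q) _).re]
      rw [sum_sub_distrib]
      simp_rw [mul_div_assoc]
      ring
    rw [f2, abs_mul, abs_of_pos hφ0]
    have f3 : |-(z - ⌊z⌋₊)| ≤ 1 := by
      have h5 : (⌊z⌋₊ : ℝ) ≤ z := Nat.floor_le hz0.le
      have h6 := Nat.lt_floor_add_one z
      rw [abs_le]
      constructor <;> linarith
    have f4 : |∑ b ∈ B, (kap (a : ZMod q) b).re * (∑ n ∈ Icc 1 ⌊z⌋₊, pw b n - z ^ b / b)| ≤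
        2 * (J - 1) := by
      refine (abs_sum_le_sum_abs _ _).trans ?_
      calc ∑ b ∈ B, |(kap (a : ZMod q) b).re * (∑ n ∈ Icc 1 ⌊z⌋₊, pw b n - z ^ b / b)| ≤
            ∑ b ∈ B, |(kap (a : ZMod q) b).re| * 2 := by
            refine sum_le_sum fun b hb' => ?_
            rw [abs_mul]
            exact mul_le_mul_of_nonneg_left (pw_sum b (hB b hb').1 (hB b hb').2 z hz) (abs_nonneg _)
        _ = 2 * ∑ b ∈ B, |(kap (a : ZMod q) b).re| := by rw [← sum_mul]; ring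
        _ ≤ _ := by linarith [hJa a ha]
    have f5 : |-(z - ⌊z⌋₊) - ∑ b ∈ B, (kap (a : ZMod q) b).re *
          (∑ n ∈ Icc 1 ⌊z⌋₊, pw b n - z ^ b / b)| ≤ 2 * J := by
      refine (abs_sub _ _).trans ?_
      linarith
    calc (q.totient : ℝ)⁻¹ * |-(z - ⌊z⌋₊) - ∑ b ∈ B, (kap (a : ZMod q) b).re *
          (∑ n ∈ Icc 1 ⌊z⌋₊, pw b n - z ^ b / b)| ≤ 1 * (2 * J) :=
          mul_le_mul hφi f5 (abs_nonneg _) zero_le_one
      _ = _ := one_mul _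
  have e5 : |∑ a ∈ S, c a * ((∑ n ∈ (Icc 1 ⌊z⌋₊).filter (fun n => n ≡ a [MOD q]), vonMangoldt n) -
      (z - ∑ b ∈ B, (kap (a : ZMod q) b).re * z ^ b / b) / q.totient) -
      ∑ a ∈ S, c a * ∑ n ∈ Icc 1 ⌊z⌋₊, ar B (a : ZMod q) n| ≤ 2 * J * ∑ a ∈ S, |c a| := by
    rw [← sum_sub_distrib, mul_sum]
    refine (abs_sum_le_sum_abs _ _).trans (sum_le_sum fun a ha => ?_)
    rw [← mul_sub, abs_mul]
    calc |c a| * _ ≤ |c a| * (2 * J) := mul_le_mul_of_nonneg_left (e4 a ha) (abs_nonneg _)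
      _ = _ := by ring
  have hK : 0 ≤ ∑ a ∈ S, |c a| := sum_nonneg fun _ _ => abs_nonneg _
  have e6 : 1 ≤ z ^ θ := Real.one_le_rpow hz (by linarith)
  have e7 : 2 * J * ∑ a ∈ S, |c a| ≤ 2 * J * (∑ a ∈ S, |c a|) * z ^ θ :=
    le_mul_of_one_le_right (by positivity) e6
  set X : ℝ := ∑ a ∈ S, c a * ((∑ n ∈ (Icc 1 ⌊z⌋₊).filter (fun n => n ≡ a [MOD q]), vonMangoldt n) -
      (z - ∑ b ∈ B, (kap (a : ZMod q) b).re * z ^ b / b) / q.totient)
  set Y : ℝ := ∑ a ∈ S, c a * ∑ n ∈ Icc 1 ⌊z⌋₊, ar B (a : ZMod q) n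
  have e8 : |X| ≤ |Y| + |X - Y| := by
    have := abs_add_le Y (X - Y)
    rwa [add_sub_cancel] at this
  calc |X| ≤ |Y| + |X - Y| := e8
    _ ≤ C * (J * ∑ a ∈ S, |c a|) * z ^ θ + 2 * J * (∑ a ∈ S, |c a|) * z ^ θ := by
        linarith
    _ = _ := by ring

end

end Pool.Agent.H6.KW
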