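import Pool.Agent.H6.KW.Bias

/-!
# A real zero dominates somewhere in every window
-/

set_option autoImplicit false

open Finset Filter Topology
open H353 H353.D
open ArithmeticFunction (vonMangoldt)

namespace Pool.Agent.H6.KW

noncomputable section

theorem gap_exists (B : Finset ℝ) (β : ℝ) (h : 1 / 2 < β) :
    ∃ θ : ℝ, 1 / 2 < θ ∧ θ < β ∧ ∀ b ∈ B, b < β → b ≤ θ := by
  classical
  induction B using Finset.induction_on with
  | empty => exact ⟨(β + 1 / 2) / 2, by linarith, by linarith, by simp⟩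
  | insert b S hb ih =>
    obtain ⟨θ, h1, h2, h3⟩ := ih
    by_cases hbβ : b < β
    · refine ⟨max θ b, lt_of_lt_of_le h1 (le_max_left _ _), max_lt h2 hbβ, fun b' hb' hlt => ?_⟩
      rcases Finset.mem_insert.1 hb' with rfl | h4
      · exact le_max_right _ _
      · exact (h3 b' h4 hlt).trans (le_max_left _ _)
    · refine ⟨θ, h1, h2, fun b' hb' hlt => ?_⟩
      rcases Finset.mem_insert.1 hb' with rfl | h4
      · exact absurd hlt hbβ
      · exact h3 b' h4 hlt

variable {q : ℕ} [NeZero q]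

theorem bias_core (B : Finset ℝ) (hB : ∀ b ∈ B, 1 / 2 < b ∧ b < 1)
    (hBc : ∀ x : ℝ, 1 / 2 < x → x < 1 → Pq q (x : ℂ) = 0 → x ∈ B) (a : ℕ) (ha : a.Coprime q)
    (β : ℝ) (hβ : β ∈ B) (hmax : ∀ b ∈ B, β < b → (kap (q := q) (a : ZMod q) b).re = 0)
    (η : ℝ) (hη : 0 < η) :
    ∃ A : ℝ, 1 < A ∧ ∀ x : ℝ, 1 ≤ x → ∃ y : ℝ, x ≤ y ∧ y ≤ A * x ∧
      ∀ z : ℝ, y ≤ z → z ≤ y + √y →
        |(∑ n ∈ (Icc 1 ⌊z⌋₊).filter (fun n => n ≡ a [MOD q]), vonMangoldt n) - z / q.totient +
          (kap (q := q) (a : ZMod q) β).re * z ^ β / (β * q.totient)| ≤ η * z ^ β := by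
  obtain ⟨θ, h1, h2, h3⟩ := gap_exists B β (hB β hβ).1
  have hβ1 := (hB β hβ).2
  obtain ⟨A, C, hA, hC, hwin⟩ := window_core B hB hBc h1 (by linarith) {a} (by simpa using ha)
  set K : ℝ := ∑ b ∈ B, |(kap (q := q) (a : ZMod q) b).re| with hK
  have hK0 : 0 ≤ K := sum_nonneg fun _ _ => abs_nonneg _
  set D : ℝ := max 1 ((C + 2 * K) / η) with hD
  have hD1 : 1 ≤ D := le_max_left _ _
  set z0 : ℝ := D ^ (1 / (β - θ)) with hz0
  have hβθ : 0 < β - θ := by linarith
  have hz01 : 1 ≤ z0 := Real.one_le_rpow hD1 (by positivity)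
  have hφ : (1:ℝ) ≤ q.totient := by exact_mod_cast Nat.totient_pos.2 (Nat.pos_of_ne_zero (NeZero.ne q))
  have hφ0 : (0:ℝ) < q.totient := by linarith
  refine ⟨A * z0, by nlinarith, fun x hx => ?_⟩
  have hxz : 1 ≤ z0 * x := by nlinarith
  obtain ⟨y, hy1, hy2, hy3⟩ := hwin (z0 * x) hxz (fun _ => 1)
  refine ⟨y, by nlinarith, by nlinarith, fun z hz1 hz2 => ?_⟩
  have hzz : z0 ≤ z := by nlinarith
  have hz : 1 ≤ z := by linarith
  have hzp : 0 < z := by linarith
  have key := hy3 z hz1 hz2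
  simp only [sum_singleton, one_mul, abs_one, mul_one] at key
  -- the power comparison
  have hpow : (C + 2 * K) * z ^ θ ≤ η * z ^ β := by
    have e1 : z ^ β = z ^ (β - θ) * z ^ θ := by
      rw [← Real.rpow_add hzp]
      congr 1
      ring
    have e2 : D ≤ z ^ (β - θ) := by
      have e3 : z0 ^ (β - θ) = D := by
        rw [hz0, ← Real.rpow_mul (by linarith), one_div, inv_mul_cancel₀ hβθ.ne', Real.rpow_one]
      rw [← e3]
      exact Real.rpow_le_rpow (by linarith) hzz hβθ.le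
    have e4 : (C + 2 * K) / η ≤ z ^ (β - θ) := (le_max_right _ _).trans e2
    rw [div_le_iff₀ hη] at e4
    have e5 : 0 < z ^ θ := by positivity
    rw [e1]
    nlinarith
  -- the other terms
  set s : ℝ := ∑ n ∈ (Icc 1 ⌊z⌋₊).filter (fun n => n ≡ a [MOD q]), vonMangoldt n with hs
  have hrest : |∑ b ∈ B.erase β, (kap (q := q) (a : ZMod q) b).re * z ^ b / b| ≤ 2 * K * z ^ θ := by
    refine (abs_sum_le_sum_abs _ _).trans ?_
    calc ∑ b ∈ B.erase β, |(kap (q := q) (a : ZMod q) b).re * z ^ b / b| ≤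
          ∑ b ∈ B.erase β, |(kap (q := q) (a : ZMod q) b).re| * (2 * z ^ θ) := by
          refine sum_le_sum fun b hb => ?_
          rw [mem_erase] at hb
          have hb1 := (hB b hb.2).1
          by_cases hlt : b < β
          · rw [mul_div_assoc, abs_mul]
            refine mul_le_mul_of_nonneg_left ?_ (abs_nonneg _)
            have e1 : z ^ b ≤ z ^ θ := Real.rpow_le_rpow_of_exponent_le hz (h3 b hb.2 hlt)
            rw [abs_of_nonneg (by positivity), div_le_iff₀ (by linarith)]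
            have e2 : 0 < z ^ θ := by positivity
            nlinarith
          · have hgt : β < b := lt_of_le_of_ne (not_lt.1 hlt) (Ne.symm hb.1)
            rw [hmax b hb.2 hgt]
            simp
      _ ≤ ∑ b ∈ B, |(kap (q := q) (a : ZMod q) b).re| * (2 * z ^ θ) :=
          sum_le_sum_of_subset_of_nonneg (erase_subset _ _) fun b _ _ => by positivity
      _ = _ := by rw [← sum_mul]; ring
  rw [← add_sum_erase B _ hβ] at key
  have e6 : s - z / q.totient + (kap (q := q) (a : ZMod q) β).re * z ^ β / (β * q.totient) =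
      (s - (z - ((kap (q := q) (a : ZMod q) β).re * z ^ β / β +
        ∑ b ∈ B.erase β, (kap (q := q) (a : ZMod q) b).re * z ^ b / b)) / q.totient) -
        (∑ b ∈ B.erase β, (kap (q := q) (a : ZMod q) b).re * z ^ b / b) / q.totient := by
    have hb0 : β ≠ 0 := by linarith [(hB β hβ).1]
    field_simp
    ring
  rw [e6]
  have e7 : |(∑ b ∈ B.erase β, (kap (q := q) (a : ZMod q) b).re * z ^ b / b) / q.totient| ≤
      2 * K * z ^ θ := by
    rw [abs_div, abs_of_pos hφ0, div_le_iff₀ hφ0]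
    refine hrest.trans (le_mul_of_one_le_right (by positivity) hφ)
  refine (abs_sub _ _).trans ?_
  linarith

end

end Pool.Agent.H6.KW
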