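import Pool.Agent.H6.KW.Div

/-!
# The product over all characters, with the real zeros divided out
-/

set_option autoImplicit false

open Finset Filter Topology
open H353 H353.D

namespace Pool.Agent.H6.KW

noncomputable section

theorem order_conj_le_pair {F G : ℂ → ℂ} (hF : Differentiable ℂ F) (hG : Differentiable ℂ G)
    (hc : ∀ s, G (starRingEnd ℂ s) = starRingEnd ℂ (F s)) (ρ : ℂ) (n : ℕ)
    (h : (n : ℕ∞) ≤ analyticOrderAt F ρ) : (n : ℕ∞) ≤ analyticOrderAt G (starRingEnd ℂ ρ) := by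
  rw [natCast_le_analyticOrderAt (hF.analyticAt _)] at h
  rw [natCast_le_analyticOrderAt (hG.analyticAt _)]
  obtain ⟨g, hg, hgeq⟩ := h
  refine ⟨fun z => starRingEnd ℂ (g (starRingEnd ℂ z)), ?_, ?_⟩
  · have hg1 : ∀ᶠ z in 𝓝 ρ, DifferentiableAt ℂ g z := by
      filter_upwards [hg.eventually_analyticAt] with z hz using hz.differentiableAt
    rw [Complex.analyticAt_iff_eventually_differentiableAt]
    have hc : Tendsto (starRingEnd ℂ) (𝓝 (starRingEnd ℂ ρ)) (𝓝 ρ) := by
      have := (Complex.continuous_conj).tendsto (starRingEnd ℂ ρ)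
      simpa using this
    filter_upwards [hc.eventually hg1] with z hz
    exact differentiableAt_conj_conj_iff.2 hz
  · have hc' : Tendsto (starRingEnd ℂ) (𝓝 (starRingEnd ℂ ρ)) (𝓝 ρ) := by
      have := (Complex.continuous_conj).tendsto (starRingEnd ℂ ρ)
      simpa using this
    filter_upwards [hc'.eventually hgeq] with z hz
    have h2 : G z = starRingEnd ℂ (F (starRingEnd ℂ z)) := by
      rw [← hc]; simp
    rw [h2, hz]
    simp

variable {q : ℕ} [NeZero q]

theorem mu_inv_le (χ : DirichletCharacter ℂ q) (x : ℝ) :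
    D.mu (Fc χ) (x : ℂ) ≤ D.mu (Fc χ⁻¹) (x : ℂ) := by
  have h1 := order_conj_le_pair (LF_Fc χ).diff (LF_Fc χ⁻¹).diff (Fc_conj χ) (x : ℂ) (D.mu (Fc χ) x)
    ((LF_Fc χ).mu_cast _).le
  rw [Complex.conj_ofReal, ← (LF_Fc χ⁻¹).mu_cast] at h1
  exact_mod_cast h1

theorem mu_inv (χ : DirichletCharacter ℂ q) (x : ℝ) :
    D.mu (Fc χ⁻¹) (x : ℂ) = D.mu (Fc χ) (x : ℂ) := by
  refine le_antisymm ?_ (mu_inv_le χ x)
  have := mu_inv_le χ⁻¹ x
  rwa [inv_inv] at this

/-- the total multiplicity of a real zero, weighted by the character values -/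
def kap (a : ZMod q) (x : ℝ) : ℂ :=
  ∑ χ : DirichletCharacter ℂ q, χ a⁻¹ * (D.mu (Fc χ) (x : ℂ) : ℂ)

theorem kap_conj (a : ZMod q) (x : ℝ) : starRingEnd ℂ (kap a x) = kap a x := by
  unfold kap
  rw [map_sum]
  refine Fintype.sum_equiv (Equiv.inv (DirichletCharacter ℂ q)) _ _ fun χ => ?_
  rw [map_mul, Equiv.inv_apply, mu_inv, Complex.conj_natCast, ← MulChar.star_apply']
  rfl

theorem kap_re (a : ZMod q) (x : ℝ) : (((kap a x).re : ℝ) : ℂ) = kap a x :=
  Complex.conj_eq_iff_re.1 (kap_conj a x)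

/-- powers -/
def pw (b : ℝ) (n : ℕ) : ℝ := if n = 0 then 0 else (n : ℝ) ^ (b - 1)

theorem pw_abs (b : ℝ) (hb : b ≤ 1) (n : ℕ) : |pw b n| ≤ 1 := by
  unfold pw
  split_ifs with h
  · simp
  · rw [abs_of_nonneg (by positivity)]
    refine Real.rpow_le_one_of_one_le_of_nonpos ?_ (by linarith)
    exact_mod_cast Nat.one_le_iff_ne_zero.2 h

theorem term_pw (b : ℝ) (s : ℂ) (n : ℕ) :
    LSeries.term (fun n => ((pw b n : ℝ) : ℂ)) s n = LSeries.term 1 (s + 1 - b) n := by
  by_cases h : n = 0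
  · subst h
    simp
  · rw [LSeries.term_of_ne_zero h, LSeries.term_of_ne_zero h]
    have hn : (n : ℂ) ≠ 0 := by exact_mod_cast h
    have e1 : ((pw b n : ℝ) : ℂ) = (n : ℂ) ^ ((b : ℂ) - 1) := by
      unfold pw
      rw [if_neg h, Complex.ofReal_cpow (by positivity)]
      push_cast
      rfl
    rw [e1, Pi.one_apply, ← Complex.cpow_sub _ _ hn, one_div, ← Complex.cpow_neg]
    congr 1
    ring

theorem summable_pw {b : ℝ} (hb : b < 1) {s : ℂ} (hs : 1 < s.re) :
    LSeriesSummable (fun n => ((pw b n : ℝ) : ℂ)) s := by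
  have h1 : LSeriesSummable 1 (s + 1 - b) := by
    rw [LSeriesSummable_one_iff]
    simp
    linarith
  unfold LSeriesSummable at h1 ⊢
  refine h1.congr fun n => (term_pw b s n).symm

theorem LSeries_pw {b : ℝ} (hb : b < 1) {s : ℂ} (hs : 1 < s.re) :
    LSeries (fun n => ((pw b n : ℝ) : ℂ)) s = riemannZeta (s + 1 - b) := by
  rw [← LSeries_one_eq_riemannZeta (by simp; linarith)]
  unfold LSeries
  exact tsum_congr fun n => term_pw b s n

theorem LF_div' {F : ℂ → ℂ} (h : LF F) (B : Finset ℝ) (hB : ∀ b ∈ B, 1 / 2 < b ∧ b < 1) :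
    ∃ G : ℂ → ℂ, Differentiable ℂ G ∧ (∀ v, F v = (∏ b ∈ B, (v - (b : ℂ)) ^ D.mu F (b : ℂ)) * G v) ∧
      (∀ b ∈ B, G (b : ℂ) ≠ 0) ∧ LF (fun s => (s + 1) ^ (∑ b ∈ B, D.mu F (b : ℂ)) * G s) := by
  obtain ⟨G, h1, h2, h3, h4⟩ := LF_div h (B.map ⟨Complex.ofReal, Complex.ofReal_injective⟩) (by
    intro b hb
    rw [Finset.mem_map] at hb
    obtain ⟨x, hx, rfl⟩ := hb
    have := hB x hx
    simp only [Function.Embedding.coeFn_mk, Complex.ofReal_im, Complex.ofReal_re]
    exact ⟨trivial, by linarith, this.2⟩)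
  refine ⟨G, h1, fun v => ?_, fun b hb => ?_, ?_⟩
  · rw [h2 v, Finset.prod_map]
    rfl
  · refine h3 _ ?_
    rw [Finset.mem_map]
    exact ⟨b, hb, rfl⟩
  · rw [Finset.sum_map] at h4
    exact h4

/-- the product of the reduced `L`-functions -/
theorem LT_red (B : Finset ℝ) (M : DirichletCharacter ℂ q → ℕ) (G : DirichletCharacter ℂ q → ℂ → ℂ)
    (hGd : ∀ χ, Differentiable ℂ (G χ))
    (hFG : ∀ χ v, Fc χ v = (∏ b ∈ B, (v - (b : ℂ)) ^ D.mu (Fc χ) (b : ℂ)) * G χ v)
    (hLF : ∀ χ, LF (fun s => (s + 1) ^ (M χ) * G χ s)) :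
    LT (fun s => ∏ χ : DirichletCharacter ℂ q, (s + 1) ^ (M χ) * G χ s) := by
  have h : LF (fun s => ∏ χ : DirichletCharacter ℂ q, (s + 1) ^ (M χ) * G χ s) :=
    LF.prod Finset.univ (fun χ s => (s + 1) ^ (M χ) * G χ s) fun χ _ => hLF χ
  refine h.toLT ?_
  have hg : ∀ s, (∏ χ : DirichletCharacter ℂ q, G χ (starRingEnd ℂ s)) =
      starRingEnd ℂ (∏ χ : DirichletCharacter ℂ q, G χ s) := by
    have c1 : Continuous (fun s : ℂ => ∏ χ : DirichletCharacter ℂ q, G χ (starRingEnd ℂ s)) := by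
      refine continuous_finsetProd _ fun χ _ => ?_
      exact (hGd χ).continuous.comp Complex.continuous_conj
    have c2 : Continuous (fun s : ℂ => starRingEnd ℂ (∏ χ : DirichletCharacter ℂ q, G χ s)) := by
      refine Complex.continuous_conj.comp (continuous_finsetProd _ fun χ _ => (hGd χ).continuous)
    have hd : Dense ((((B.image (fun x : ℝ => (x : ℂ))) : Finset ℂ) : Set ℂ)ᶜ) :=
      (Finset.countable_toSet _).dense_compl ℝ
    have := Continuous.ext_on hd c1 c2 ?_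
    · exact fun s => congrFun this s
    · intro s hs
      have hs' : ∀ b ∈ B, s ≠ (b : ℂ) := by
        intro b hb he
        refine hs ?_
        rw [Finset.mem_coe, Finset.mem_image]
        exact ⟨b, hb, he.symm⟩
      set P : ℂ → ℂ := fun s => ∏ χ : DirichletCharacter ℂ q, ∏ b ∈ B, (s - (b : ℂ)) ^ D.mu (Fc χ) (b : ℂ)
        with hP
      have hPq : ∀ s, Pq q s = P s * ∏ χ : DirichletCharacter ℂ q, G χ s := by
        intro s
        unfold Pq
        rw [hP, ← Finset.prod_mul_distrib]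
        exact Finset.prod_congr rfl fun χ _ => hFG χ s
      have hPc : P (starRingEnd ℂ s) = starRingEnd ℂ (P s) := by
        simp only [hP, map_prod, map_pow, map_sub, Complex.conj_ofReal]
      have hPne : P (starRingEnd ℂ s) ≠ 0 := by
        rw [hPc, map_ne_zero]
        refine Finset.prod_ne_zero_iff.2 fun χ _ => Finset.prod_ne_zero_iff.2 fun b hb => ?_
        exact pow_ne_zero _ (sub_ne_zero.2 (hs' b hb))
      have h1 := (LT_Pq q).conj s
      rw [hPq, hPq, map_mul, ← hPc] at h1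
      exact mul_left_cancel₀ hPne h1
  intro s
  rw [Finset.prod_mul_distrib, Finset.prod_mul_distrib, map_mul, ← hg]
  congr 1
  simp [map_prod]

end

end Pool.Agent.H6.KW
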