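import Pool.Graph.R_pool_sql_team_seeded_f0cf7b00.H353R5.B8
import Pool.Graph.R_pool_sql_team_seeded_f0cf7b00.H353R5.C3
import Pool.Graph.R_seed8.H353R2.An

/-!
# Dividing out real zeros
-/

set_option autoImplicit false

open Finset Filter Topology
open H353 H353.D

namespace Pool.Agent.H6.KW

theorem norm_real_lt {b : ℂ} (h : b.im = 0 ∧ 0 < b.re ∧ b.re < 1) : ‖b‖ < 1 := by
  have h1 := Complex.norm_le_abs_re_add_abs_im b
  rw [h.1, abs_zero, add_zero, abs_of_pos h.2.1] at h1
  linarith [h.2.2]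

theorem norm_add_one_ge {v b : ℂ} (hv : 0 ≤ v.re) (h : b.im = 0 ∧ 0 < b.re ∧ b.re < 1) :
    ‖v - b‖ ≤ ‖v + 1‖ := by
  have h1 : ‖v - b‖ ^ 2 ≤ ‖v + 1‖ ^ 2 := by
    rw [Complex.sq_norm, Complex.sq_norm, Complex.normSq_apply, Complex.normSq_apply]
    simp only [Complex.sub_re, Complex.sub_im, Complex.add_re, Complex.add_im, Complex.one_re,
      Complex.one_im, h.1]
    nlinarith [h.2.1, h.2.2]
  exact le_of_sq_le_sq h1 (norm_nonneg _)
where
  le_of_sq_le_sq {a b : ℝ} (h : a ^ 2 ≤ b ^ 2) (hb : 0 ≤ b) : a ≤ b := abs_le_of_sq_le_sq' h hb |>.2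

/-- divide an `L`-function by the factors belonging to finitely many real zeros -/
theorem LF_div {F : ℂ → ℂ} (h : LF F) (B : Finset ℂ)
    (hB : ∀ b ∈ B, b.im = 0 ∧ 0 < b.re ∧ b.re < 1) :
    ∃ G : ℂ → ℂ, Differentiable ℂ G ∧ (∀ v, F v = (∏ b ∈ B, (v - b) ^ mu F b) * G v) ∧
      (∀ b ∈ B, G b ≠ 0) ∧ LF (fun s => (s + 1) ^ (∑ b ∈ B, mu F b) * G s) := by
  classical
  obtain ⟨G, hGd', hFG⟩ := div_pts Set.univ isOpen_univ F h.diff.differentiableOn B (mu F)
    (fun _ _ => Set.mem_univ _) (fun b _ => (h.mu_cast b).le)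
  have hGd : Differentiable ℂ G := differentiableOn_univ.1 hGd'
  have hPd : Differentiable ℂ (fun v : ℂ => ∏ b ∈ B, (v - b) ^ mu F b) := by fun_prop
  have hG0 : ∀ b ∈ B, G b ≠ 0 := by
    intro β hβ h0
    have hGa : AnalyticAt ℂ G β := hGd.analyticAt β
    have h1 : (1:ℕ∞) ≤ analyticOrderAt G β := by
      rw [Order.one_le_iff_ne_zero, hGa.analyticOrderAt_ne_zero]
      exact h0
    have e : F = (fun v : ℂ => v - β) ^ (mu F β) *
        ((fun v : ℂ => ∏ b ∈ B.erase β, (v - b) ^ mu F b) * G) := by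
      funext v
      rw [hFG v, ← Finset.mul_prod_erase B _ hβ]
      simp only [Pi.mul_apply, Pi.pow_apply]
      ring
    have a1 : AnalyticAt ℂ (fun v : ℂ => v - β) β := by fun_prop
    have a2 : AnalyticAt ℂ (fun v : ℂ => ∏ b ∈ B.erase β, (v - b) ^ mu F b) β :=
      Differentiable.analyticAt (by fun_prop) _
    have h2 : analyticOrderAt F β = (mu F β : ℕ∞) +
        (analyticOrderAt (fun v : ℂ => ∏ b ∈ B.erase β, (v - b) ^ mu F b) β +
          analyticOrderAt G β) := by
      calc analyticOrderAt F β = analyticOrderAt ((fun v : ℂ => v - β) ^ (mu F β) *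
            ((fun v : ℂ => ∏ b ∈ B.erase β, (v - b) ^ mu F b) * G)) β :=
            congrArg (fun f => analyticOrderAt f β) e
        _ = _ := by
          rw [analyticOrderAt_mul (a1.pow _) (a2.mul hGa), analyticOrderAt_mul a2 hGa,
            analyticOrderAt_pow a1, order_lin_self]
          simp
    rw [← h.mu_cast] at h2
    have h3 : (mu F β : ℕ∞) + 1 ≤ (mu F β : ℕ∞) := by
      calc (mu F β : ℕ∞) + 1 ≤ (mu F β : ℕ∞) +
          (analyticOrderAt (fun v : ℂ => ∏ b ∈ B.erase β, (v - b) ^ mu F b) β +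
            analyticOrderAt G β) := by
            gcongr
            exact h1.trans le_add_self
        _ = (mu F β : ℕ∞) := h2.symm
    have h4 : mu F β + 1 ≤ mu F β := by exact_mod_cast h3
    omega
  set M : ℕ := ∑ b ∈ B, mu F b with hM
  set P : ℂ → ℂ := fun v => ∏ b ∈ B, (v - b) ^ mu F b with hP
  have hPne : ∀ v : ℂ, (∀ b ∈ B, v ≠ b) → P v ≠ 0 := fun v hv =>
    Finset.prod_ne_zero_iff.2 fun b hb => pow_ne_zero _ (sub_ne_zero.2 (hv b hb))
  have hPnorm : ∀ v, ‖P v‖ = ∏ b ∈ B, ‖v - b‖ ^ mu F b := fun v => by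
    simp only [hP, norm_prod, norm_pow]
  refine ⟨G, hGd, hFG, hG0, ?_, ?_, ?_, ?_, ?_⟩
  · -- differentiable
    fun_prop
  · -- bound
    intro σ0 h0
    obtain ⟨C, hC, k, hk⟩ := h.bound σ0 h0
    obtain ⟨C2, hC2⟩ := (isCompact_closedBall (0:ℂ) 2).exists_bound_of_continuousOn
      hGd.continuous.continuousOn
    have hC20 : 0 ≤ C2 := (norm_nonneg _).trans (hC2 0 (by simp))
    refine ⟨C + C2, by linarith, M + k, fun v hv => ?_⟩
    have hn := norm_nonneg v
    have hs : (1:ℝ) ≤ 1 + ‖v‖ := by linarith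
    have hG : ‖G v‖ ≤ (C + C2) * (1 + ‖v‖) ^ k := by
      have hp : (1:ℝ) ≤ (1 + ‖v‖) ^ k := one_le_pow₀ hs
      rcases le_total ‖v‖ 2 with h2 | h2
      · have := hC2 v (by simpa using h2)
        nlinarith
      · have h3 : 1 ≤ ‖P v‖ := by
          rw [hPnorm]
          calc (1:ℝ) = ∏ _b ∈ B, (1:ℝ) := by simp
            _ ≤ _ := Finset.prod_le_prod (fun _ _ => zero_le_one) fun b hb => by
              refine one_le_pow₀ ?_
              have h4 := norm_real_lt (hB b hb)
              have h5 := norm_sub_norm_le v b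
              linarith
        have h4 : ‖F v‖ = ‖P v‖ * ‖G v‖ := by rw [hFG v, norm_mul]
        have h5 := hk v hv
        have h6 := norm_nonneg (G v)
        nlinarith
    rw [norm_mul, norm_pow, pow_add]
    have h7 : ‖v + 1‖ ^ M ≤ (1 + ‖v‖) ^ M := by
      refine pow_le_pow_left₀ (norm_nonneg _) ?_ _
      have := norm_add_le v 1
      rw [norm_one] at this
      linarith
    calc ‖v + 1‖ ^ M * ‖G v‖ ≤ (1 + ‖v‖) ^ M * ((C + C2) * (1 + ‖v‖) ^ k) :=
          mul_le_mul h7 hG (norm_nonneg _) (by positivity)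
      _ = _ := by ring
  · -- lower
    obtain ⟨c, hc, hc1, hlow⟩ := h.lower
    refine ⟨c, hc, hc1, fun v hv => ?_⟩
    rw [norm_mul, norm_pow]
    have h1 : ‖P v‖ ≤ ‖v + 1‖ ^ M := by
      rw [hPnorm, hM, ← Finset.prod_pow_eq_pow_sum]
      refine Finset.prod_le_prod (fun b _ => by positivity) fun b hb => ?_
      exact pow_le_pow_left₀ (norm_nonneg _) (norm_add_one_ge (by linarith) (hB b hb)) _
    calc c ≤ ‖F v‖ := hlow v hv
      _ = ‖P v‖ * ‖G v‖ := by rw [hFG v, norm_mul]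
      _ ≤ ‖v + 1‖ ^ M * ‖G v‖ := mul_le_mul_of_nonneg_right h1 (norm_nonneg _)
  · -- no zeros
    intro v hv h0
    rcases mul_eq_zero.1 h0 with h1 | h1
    · refine pow_ne_zero M (fun h3 : v + 1 = 0 => ?_) h1
      have h4 := congrArg Complex.re h3
      simp at h4
      linarith
    · exact h.ne v hv (by rw [hFG v, h1, mul_zero])
  · -- zeros
    intro σ h1 h2
    have hz : ∀ ρ : ℂ, 0 < ρ.im → ((ρ + 1) ^ M * G ρ = 0 ↔ F ρ = 0) := by
      intro ρ hρ
      have hne : P ρ ≠ 0 := hPne ρ fun b hb hbe => by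
        rw [hbe, (hB b hb).1] at hρ
        exact lt_irrefl _ hρ
      have hne2 : (ρ + 1) ^ M ≠ 0 := pow_ne_zero _ fun h3 => by
        have h4 := congrArg Complex.im h3
        simp at h4
        linarith
      rw [hFG ρ, mul_eq_zero, mul_eq_zero]
      simp only [hP] at hne
      simp [hne, hne2]
    have hmu : ∀ ρ : ℂ, 0 < ρ.im → mu (fun s => (s + 1) ^ M * G s) ρ = mu F ρ := by
      intro ρ hρ
      have hne : P ρ ≠ 0 := hPne ρ fun b hb hbe => by
        rw [hbe, (hB b hb).1] at hρ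
        exact lt_irrefl _ hρ
      have hne2 : (ρ + 1) ^ M ≠ 0 := pow_ne_zero _ fun h3 => by
        have h4 := congrArg Complex.im h3
        simp at h4
        linarith
      have hGa : AnalyticAt ℂ G ρ := hGd.analyticAt ρ
      have hPa : AnalyticAt ℂ P ρ := hPd.analyticAt ρ
      have hQa : AnalyticAt ℂ (fun s : ℂ => (s + 1) ^ M) ρ := by fun_prop
      have e1 : analyticOrderAt F ρ = analyticOrderAt G ρ := by
        have e2 : F = P * G := funext hFG
        calc analyticOrderAt F ρ = analyticOrderAt (P * G) ρ :=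
              congrArg (fun f => analyticOrderAt f ρ) e2
          _ = _ := by
            rw [analyticOrderAt_mul hPa hGa, hPa.analyticOrderAt_eq_zero.2 hne, zero_add]
      have e3 : analyticOrderAt (fun s => (s + 1) ^ M * G s) ρ = analyticOrderAt G ρ := by
        have e2 : (fun s => (s + 1) ^ M * G s) = (fun s : ℂ => (s + 1) ^ M) * G := rfl
        rw [e2, analyticOrderAt_mul hQa hGa, hQa.analyticOrderAt_eq_zero.2 hne2, zero_add]
      unfold D.mu analyticOrderNatAt
      rw [e1, e3]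
    have h3 := (zsum_iff F σ).1 (h.zsum σ h1 h2)
    refine (zsum_iff (fun s => (s + 1) ^ M * G s) σ).2 ?_
    convert h3 using 1
    funext ρ
    simp only [Set.indicator_apply, Set.mem_ofPred_eq]
    by_cases him : 0 < ρ.im
    · rw [hmu ρ him]
      simp only [hz ρ him]
    · simp [him]

end Pool.Agent.H6.KW
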