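import Pool.Graph.R_pool_sql_team_seeded_f0cf7b00.H353R5.B8

/-!
# Monotone cutoffs at every scale

For a function `Φ` with few zeros to the right of `1/2` there are monotone cutoffs at every scale
`A > 1` for some exponent `θ < 1`.
-/

set_option autoImplicit false

open Complex MeasureTheory ProbabilityTheory Filter Topology Set Metric
open H353 H353.D

namespace Pool.Agent.H6.KW

noncomputable section

variable {Φ : ℂ → ℂ}

theorem hx_tsum (h : LT Φ) (σ : ℝ) (h1 : 1 / 2 < σ) (h2 : σ < 1) :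
    ∑' i, hx Φ σ i = Real.pi * ∑' ρ : ℂ, ({ρ : ℂ | Φ ρ = 0 ∧ σ ≤ ρ.re ∧ 0 < ρ.im}).indicator
      (fun ρ => (mu Φ ρ : ℝ) / ρ.im) ρ := by
  have e1 : ∑' i, hx Φ σ i = Real.pi * ∑' ρ : ZS Φ σ, ((mu Φ ρ.1 : ℝ) / ρ.1.im) := by
    rw [(h.hx_summable σ h1 h2).tsum_sigma]
    rw [← tsum_mul_left]
    refine tsum_congr fun ρ => ?_
    rw [tsum_fintype]
    simp only [H353.D.hx, Finset.sum_const, Finset.card_univ, Fintype.card_fin, nsmul_eq_mul]
    ring
  rw [e1, ← tsum_subtype]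
  rfl

/-- the total length of the killing walk tends to zero -/
theorem hx_tendsto (h : LT Φ) : Tendsto (fun σ : ℝ => ∑' i, hx Φ σ i) (𝓝[<] 1) (𝓝 0) := by
  set S : ℝ → Set ℂ := fun σ => {ρ : ℂ | Φ ρ = 0 ∧ σ ≤ ρ.re ∧ 0 < ρ.im} with hS
  set wt : ℂ → ℝ := fun ρ => (mu Φ ρ : ℝ) / ρ.im with hwt
  have key : Tendsto (fun σ : ℝ => ∑' ρ : ℂ, (S σ).indicator wt ρ) (𝓝[<] 1)
      (𝓝 (∑' ρ : ℂ, (0:ℝ))) := by
    refine tendsto_tsum_of_dominated_convergence (bound := (S (3/4)).indicator wt)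
      ((zsum_iff Φ (3/4)).1 (h.zsum (3/4) (by norm_num) (by norm_num))) ?_ ?_
    · intro ρ
      by_cases hz : Φ ρ = 0
      · have hre := h.zero_re hz
        refine tendsto_const_nhds.congr' ?_
        have : Ioi ρ.re ∈ 𝓝[<] (1:ℝ) := mem_nhdsWithin_of_mem_nhds (Ioi_mem_nhds hre)
        filter_upwards [this] with σ hσ
        show (0:ℝ) = (S σ).indicator wt ρ
        rw [indicator_of_notMem]
        rintro ⟨_, h, _⟩
        exact absurd h (not_le.2 hσ)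
      · refine tendsto_const_nhds.congr' (Eventually.of_forall fun σ => ?_)
        show (0:ℝ) = (S σ).indicator wt ρ
        rw [indicator_of_notMem]
        rintro ⟨h, _, _⟩
        exact hz h
    · have : Ioi (3/4 : ℝ) ∈ 𝓝[<] (1:ℝ) := mem_nhdsWithin_of_mem_nhds (Ioi_mem_nhds (by norm_num))
      filter_upwards [this] with σ hσ ρ
      have hσ' : 3 / 4 < σ := hσ
      by_cases hm : ρ ∈ S σ
      · have hm2 : ρ ∈ S (3/4) := ⟨hm.1, by linarith [hm.2.1], hm.2.2⟩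
        rw [indicator_of_mem hm, indicator_of_mem hm2, Real.norm_eq_abs, abs_of_nonneg]
        exact div_nonneg (Nat.cast_nonneg _) hm.2.2.le
      · rw [indicator_of_notMem hm, norm_zero]
        refine indicator_nonneg ?_ ρ
        intro z hz
        exact div_nonneg (Nat.cast_nonneg _) hz.2.2.le
  rw [tsum_zero] at key
  have h2 := key.const_mul Real.pi
  rw [mul_zero] at h2
  refine h2.congr' ?_
  have h3 : Ioi (1/2 : ℝ) ∈ 𝓝[<] (1:ℝ) := mem_nhdsWithin_of_mem_nhds (Ioi_mem_nhds (by norm_num))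
  filter_upwards [h3, self_mem_nhdsWithin] with σ hσ hσ1
  exact (hx_tsum h σ hσ hσ1).symm

/-- no real zeros near `1` and to the right of it -/
theorem real_free (h : LT Φ) : ∃ δ : ℝ, 0 < δ ∧ ∀ x : ℝ, 1 - δ ≤ x → Φ (x : ℂ) ≠ 0 := by
  have h1 : Φ ((1 : ℝ) : ℂ) ≠ 0 := h.ne _ (by simp)
  have hc : Continuous (fun x : ℝ => Φ (x : ℂ)) := h.diff.continuous.comp Complex.continuous_ofReal
  have hev := hc.continuousAt.eventually_ne h1
  rw [Metric.eventually_nhds_iff] at hev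
  obtain ⟨δ, hδ, hb⟩ := hev
  refine ⟨δ / 2, by linarith, fun x hx => ?_⟩
  by_cases h2 : x < 1
  · exact hb (by rw [Real.dist_eq, abs_lt]; constructor <;> linarith)
  · exact h.ne _ (by simpa using not_lt.1 h2)

/-- **Monotone cutoffs at every scale.** -/
theorem mono_every (h : LT Φ) (A : ℝ) (hA : 1 < A) : ∃ θ : ℝ, 1 / 2 < θ ∧ θ < 1 ∧
    ∃ W : ℝ → ℝ, CutW A W ∧ Monotone W ∧ ∀ a R, AF Φ a R → bdW a θ W := by
  have hL : 0 < Real.log A := Real.log_pos hA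
  obtain ⟨δ, hδ, hr⟩ := real_free h
  have e1 : ∀ᶠ σ in 𝓝[<] (1:ℝ), ∑' i, hx Φ σ i < Real.log A / 2 :=
    (hx_tendsto h).eventually (Iio_mem_nhds (by linarith))
  have e2 : ∀ᶠ σ in 𝓝[<] (1:ℝ), 1 / 2 < σ :=
    mem_nhdsWithin_of_mem_nhds (Ioi_mem_nhds (by norm_num))
  have e3 : ∀ᶠ σ in 𝓝[<] (1:ℝ), 1 - δ < σ :=
    mem_nhdsWithin_of_mem_nhds (Ioi_mem_nhds (by linarith))
  have e4 : ∀ᶠ σ in 𝓝[<] (1:ℝ), σ < 1 := self_mem_nhdsWithin
  obtain ⟨σ, a1, a2, a3, a4⟩ := (e1.and (e2.and (e3.and e4))).exists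
  set ε : ℝ := Real.log A - ∑' i, hx Φ σ i with hε
  have hε0 : 0 < ε := by rw [hε]; linarith
  have := h.ZS_countable σ a2 a4
  have hf := Ph_ST ε hε0
  have hK := h.KS_kill σ a2 a4 (fun x hx => hr x (by linarith))
  have h0 : ∀ i, 0 ≤ hx Φ σ i := fun i => (hx_pos _ i).le
  have hs := h.hx_summable σ a2 a4
  have hGK : ∀ s : ℂ, 0 < s.re → GF (Ph ε) s * KK (bx Φ σ) (hx Φ σ) s = GG ε s * KS Φ σ s :=
    fun s _ => rfl
  set g := Av (bx Φ σ) (hx Φ σ) (Ph ε) with hg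
  have hgST : ST (Real.log A) g := by
    have := Av_ST (bx Φ σ) (hx Φ σ) h0 hs hf
    have e : ε + ∑' i, hx Φ σ i = Real.log A := by rw [hε]; ring
    rw [e] at this
    exact this
  have hgm : Monotone g := Av_mono _ _ h0 hs hf (Ph_mono ε hε0)
  refine ⟨(σ + 1) / 2, by linarith, by linarith, wg g, ?_, wg_mono hgST hgm, fun a R ha => ?_⟩
  · have := wg_cut hgST
    rwa [Real.exp_log (by linarith)] at this
  · exact wg_bd hgST ha.zero _ (core _ _ h0 hs h ha a2 (by linarith) (by linarith) hε0 hf hK hGK)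

end

end Pool.Agent.H6.KW
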