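import Pool.Agent.H6.KW.Points
import Pool.Agent.H6.KW.Scale

/-!
# Short intervals with small partial sums in every window
-/

set_option autoImplicit false

open Finset
open H353 H353.D

namespace Pool.Agent.H6.KW

theorem log_add_one_le (δ : ℝ) (hδ : 0 < δ) (t : ℝ) (ht : 1 ≤ t) :
    Real.log t + 1 ≤ (1 / δ + 1) * t ^ δ := by
  have h1 := Real.log_le_rpow_div (by linarith : (0:ℝ) ≤ t) hδ
  have h2 : 1 ≤ t ^ δ := Real.one_le_rpow ht hδ.le
  have h3 : t ^ δ / δ = 1 / δ * t ^ δ := by ring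
  rw [h3] at h1
  linarith

/-- In every window `[x, B x]` there is an interval `[y, y + √y]` on which a given linear
combination of partial sums is small. -/
theorem local_gen {ι : Type*} [Fintype ι] (f : ι → ℕ → ℝ)
    (hf : ∀ i n, 1 ≤ n → |f i n| ≤ Real.log n + 1) {A B θ : ℝ} (hA : 1 < A) (hAB : A < B)
    (h1 : 1 / 2 < θ) (h2 : θ < 1) {W : ℝ → ℝ} (hW : CutW A W) (hm : Monotone W)
    (hb : ∀ i, bdW (f i) θ W) :
    ∃ C : ℝ, 0 < C ∧ ∀ x : ℝ, 1 ≤ x → ∀ c : ι → ℝ, ∃ y : ℝ, x ≤ y ∧ y ≤ B * x ∧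
      ∀ z : ℝ, y ≤ z → z ≤ y + √y →
        |∑ i, c i * ∑ n ∈ Icc 1 ⌊z⌋₊, f i n| ≤ C * (∑ i, |c i|) * z ^ θ := by
  choose Ci hCi using hb
  have hCi0 : ∀ i, 0 ≤ Ci i := fun i => by
    have := (abs_nonneg _).trans (hCi i 1 le_rfl)
    simpa using this
  set C0 : ℝ := ∑ i, Ci i with hC0
  have hC00 : 0 ≤ C0 := sum_nonneg fun i _ => hCi0 i
  have hCle : ∀ i, Ci i ≤ C0 := fun i => single_le_sum (f := Ci) (fun i _ => hCi0 i) (mem_univ i)
  set x0 : ℝ := max 1 (A / (B - A)) with hx0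
  have hx01 : 1 ≤ x0 := le_max_left _ _
  set δ : ℝ := θ - 1 / 2 with hδ
  have hδ0 : 0 < δ := by rw [hδ]; linarith
  have hB1 : 1 < B := by linarith
  set D : ℝ := 1 / δ + 1 with hD
  have hD0 : 0 < D := by positivity
  have hlog0 : 0 ≤ Real.log (2 * x0) := Real.log_nonneg (by linarith)
  refine ⟨C0 * B + D * (B + 1) + 2 * x0 * (Real.log (2 * x0) + 1), by positivity, fun x hx c => ?_⟩
  set K : ℝ := ∑ i, |c i| with hK
  have hK0 : 0 ≤ K := sum_nonneg fun i _ => abs_nonneg _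
  -- the combined sequence
  set a : ℕ → ℝ := fun n => ∑ i, c i * f i n with ha
  have hcomb : ∀ (N : ℕ) (w : ℕ → ℝ), ∑ n ∈ Icc 1 N, a n * w n =
      ∑ i, c i * ∑ n ∈ Icc 1 N, f i n * w n := by
    intro N w
    simp only [ha, sum_mul, mul_sum]
    rw [sum_comm]
    exact sum_congr rfl fun i _ => sum_congr rfl fun n _ => by ring
  have hcomb1 : ∀ N : ℕ, ∑ i, c i * ∑ n ∈ Icc 1 N, f i n = ∑ n ∈ Icc 1 N, a n := by
    intro N
    have := hcomb N (fun _ => 1)
    simpa using this.symm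
  have hterm : ∀ n : ℕ, 1 ≤ n → |a n| ≤ K * (Real.log n + 1) := by
    intro n hn
    calc |a n| ≤ ∑ i, |c i * f i n| := abs_sum_le_sum_abs _ _
      _ ≤ ∑ i, |c i| * (Real.log n + 1) := by
          refine sum_le_sum fun i _ => ?_
          rw [abs_mul]
          exact mul_le_mul_of_nonneg_left (hf i n hn) (abs_nonneg _)
      _ = _ := by rw [← sum_mul]
  have hterm' : ∀ (n : ℕ) (z : ℝ), 1 ≤ n → (n : ℝ) ≤ z → |a n| ≤ K * (Real.log z + 1) := by
    intro n z hn hz
    have hn0 : (0 : ℝ) < n := by exact_mod_cast hn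
    refine (hterm n hn).trans (mul_le_mul_of_nonneg_left ?_ hK0)
    have := Real.log_le_log hn0 hz
    linarith
  have hx00 : 0 < x := by linarith
  by_cases hxx : x < x0
  · -- small `x`
    refine ⟨x, le_rfl, by nlinarith, fun z hz1 hz2 => ?_⟩
    rw [hcomb1]
    have hz : 1 ≤ z := by linarith
    have hz0 : 0 < z := by linarith
    have hsq : √x ≤ x := by
      rw [Real.sqrt_le_left hx00.le]
      nlinarith
    have hz3 : z ≤ 2 * x0 := by linarith
    have e1 : |∑ n ∈ Icc 1 ⌊z⌋₊, a n| ≤ ⌊z⌋₊ * (K * (Real.log z + 1)) := by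
      refine (abs_sum_le_sum_abs _ _).trans ?_
      have : ∀ n ∈ Icc 1 ⌊z⌋₊, |a n| ≤ K * (Real.log z + 1) := fun n hn => by
        rw [mem_Icc] at hn
        exact hterm' n z hn.1 ((Nat.le_floor_iff hz0.le).1 hn.2)
      refine (sum_le_card_nsmul _ _ _ this).trans (le_of_eq ?_)
      rw [nsmul_eq_mul, Nat.card_Icc]
      simp
    have e2 : (⌊z⌋₊ : ℝ) ≤ 2 * x0 := (Nat.floor_le hz0.le).trans hz3
    have e3 : Real.log z ≤ Real.log (2 * x0) := Real.log_le_log hz0 hz3
    have e4 : 1 ≤ z ^ θ := Real.one_le_rpow hz (by linarith)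
    have e5 : 0 ≤ Real.log z := Real.log_nonneg hz
    calc |∑ n ∈ Icc 1 ⌊z⌋₊, a n| ≤ ⌊z⌋₊ * (K * (Real.log z + 1)) := e1
      _ ≤ (2 * x0) * (K * (Real.log (2 * x0) + 1)) := by gcongr
      _ = (2 * x0 * (Real.log (2 * x0) + 1)) * K * 1 := by ring
      _ ≤ (C0 * B + D * (B + 1) + 2 * x0 * (Real.log (2 * x0) + 1)) * K * z ^ θ := by
          gcongr
          have : 0 ≤ C0 * B + D * (B + 1) := by positivity
          linarith
  · -- large `x`
    have hxx : x0 ≤ x := not_lt.1 hxx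
    set X : ℝ := A * (x + 1) with hX
    have hXA : A ≤ X := by rw [hX]; nlinarith
    have hXB : X ≤ B * x := by
      have h3 : A / (B - A) ≤ x := (le_max_right _ _).trans hxx
      rw [div_le_iff₀ (by linarith)] at h3
      rw [hX]
      linarith
    have hX1 : 1 ≤ X := by linarith
    have hsm : |∑ n ∈ Icc 1 ⌊X⌋₊, a n * W (X / n)| ≤ K * C0 * X ^ θ := by
      rw [hcomb]
      refine (abs_sum_le_sum_abs _ _).trans ?_
      calc ∑ i, |c i * ∑ n ∈ Icc 1 ⌊X⌋₊, f i n * W (X / n)| ≤ ∑ i, |c i| * (C0 * X ^ θ) := by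
            refine sum_le_sum fun i _ => ?_
            rw [abs_mul]
            refine mul_le_mul_of_nonneg_left ?_ (abs_nonneg _)
            refine (hCi i X hX1).trans ?_
            exact mul_le_mul_of_nonneg_right (hCle i) (by positivity)
        _ = _ := by rw [← sum_mul]; ring
    obtain ⟨m, hm1, hm2, hm3⟩ := point hA hW.2.1 hW.2.2 hm a (K * C0 * X ^ θ)
      (K * (Real.log X + 1)) X hXA (mul_nonneg hK0 (by have := Real.log_nonneg hX1; linarith)) hsm
      (fun n hn hnX => hterm' n X hn hnX)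
    have hA0 : 0 < A := by linarith
    have hm4 : x ≤ m := by
      have : X / A - 1 = x := by rw [hX]; field_simp; ring
      linarith
    refine ⟨m, hm4, hm2.trans hXB, fun z hz1 hz2 => ?_⟩
    rw [hcomb1]
    have hz : 1 ≤ z := by linarith
    have hz0 : 0 < z := by linarith
    have hmz : m ≤ ⌊z⌋₊ := Nat.le_floor hz1
    have hsplit : ∑ n ∈ Icc 1 ⌊z⌋₊, a n = ∑ n ∈ Icc 1 m, a n + ∑ n ∈ Ioc m ⌊z⌋₊, a n := by
      rw [← Finset.sum_union]
      · congr 1
        ext n
        simp only [mem_Icc, mem_union, mem_Ioc]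
        omega
      · rw [Finset.disjoint_left]
        intro n hn hn'
        rw [mem_Icc] at hn
        rw [mem_Ioc] at hn'
        omega
    have hshort : |∑ n ∈ Ioc m ⌊z⌋₊, a n| ≤ √z * (K * (Real.log z + 1)) := by
      refine (abs_sum_le_sum_abs _ _).trans ?_
      have : ∀ n ∈ Ioc m ⌊z⌋₊, |a n| ≤ K * (Real.log z + 1) := fun n hn => by
        rw [mem_Ioc] at hn
        exact hterm' n z (by omega) ((Nat.le_floor_iff hz0.le).1 hn.2)
      refine (sum_le_card_nsmul _ _ _ this).trans ?_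
      rw [nsmul_eq_mul, Nat.card_Ioc]
      have hlz : 0 ≤ Real.log z := Real.log_nonneg hz
      refine mul_le_mul_of_nonneg_right ?_ (mul_nonneg hK0 (by linarith))
      rw [Nat.cast_sub hmz]
      have h5 : (⌊z⌋₊ : ℝ) ≤ z := Nat.floor_le hz0.le
      have h6 : √(m : ℝ) ≤ √z := Real.sqrt_le_sqrt hz1
      linarith
    have hXz : X ≤ B * z := by
      refine hXB.trans ?_
      have : x ≤ z := hm4.trans hz1
      nlinarith
    have hpow : ∀ t : ℝ, 0 ≤ t → t ≤ 1 → X ^ t ≤ B * z ^ t := by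
      intro t ht0 ht1
      calc X ^ t ≤ (B * z) ^ t := Real.rpow_le_rpow (by linarith) hXz ht0
        _ = B ^ t * z ^ t := Real.mul_rpow (by linarith) hz0.le
        _ ≤ B * z ^ t := by
            refine mul_le_mul_of_nonneg_right ?_ (by positivity)
            calc B ^ t ≤ B ^ (1:ℝ) := Real.rpow_le_rpow_of_exponent_le hB1.le ht1
              _ = B := Real.rpow_one B
    have hzz : z ^ δ ≤ z ^ θ := Real.rpow_le_rpow_of_exponent_le hz (by rw [hδ]; linarith)
    have hE1 : Real.log X + 1 ≤ D * B * z ^ θ := by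
      calc Real.log X + 1 ≤ D * X ^ δ := log_add_one_le δ hδ0 X hX1
        _ ≤ D * (B * z ^ δ) := by
            refine mul_le_mul_of_nonneg_left (hpow δ hδ0.le (by rw [hδ]; linarith)) hD0.le
        _ ≤ D * (B * z ^ θ) := by gcongr
        _ = _ := by ring
    have hE2 : √z * (Real.log z + 1) ≤ D * z ^ θ := by
      calc √z * (Real.log z + 1) ≤ √z * (D * z ^ δ) :=
            mul_le_mul_of_nonneg_left (log_add_one_le δ hδ0 z hz) (Real.sqrt_nonneg _)
        _ = D * z ^ θ := by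
            rw [Real.sqrt_eq_rpow]
            have : z ^ θ = z ^ (1 / 2 : ℝ) * z ^ δ := by
              rw [← Real.rpow_add hz0, hδ]
              congr 1
              ring
            rw [this]
            ring
    have hE3 : X ^ θ ≤ B * z ^ θ := hpow θ (by linarith) h2.le
    rw [hsplit]
    calc |∑ n ∈ Icc 1 m, a n + ∑ n ∈ Ioc m ⌊z⌋₊, a n|
        ≤ |∑ n ∈ Icc 1 m, a n| + |∑ n ∈ Ioc m ⌊z⌋₊, a n| := abs_add_le _ _
      _ ≤ (K * C0 * X ^ θ + K * (Real.log X + 1)) + √z * (K * (Real.log z + 1)) := add_le_add hm3 hshort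
      _ = K * (C0 * X ^ θ + (Real.log X + 1) + √z * (Real.log z + 1)) := by ring
      _ ≤ K * (C0 * (B * z ^ θ) + D * B * z ^ θ + D * z ^ θ) := by gcongr
      _ = (C0 * B + D * (B + 1)) * K * z ^ θ := by ring
      _ ≤ (C0 * B + D * (B + 1) + 2 * x0 * (Real.log (2 * x0) + 1)) * K * z ^ θ := by
          have h7 : 0 ≤ 2 * x0 * (Real.log (2 * x0) + 1) := by positivity
          exact mul_le_mul_of_nonneg_right (mul_le_mul_of_nonneg_right (by linarith) hK0)
            (by positivity)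

end Pool.Agent.H6.KW
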