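import Mathlib

/-!
# Monotone cutoffs and points with small partial sums
-/

set_option autoImplicit false

open Finset

namespace Pool.Agent.H6.KW

/-- summation by parts against the values of a function `w` -/
theorem abel (a w : ℕ → ℝ) (N : ℕ) :
    ∑ n ∈ Icc 1 N, a n * w n =
      ∑ m ∈ Icc 1 N, (∑ n ∈ Icc 1 m, a n) * (w m - w (m + 1)) + (∑ n ∈ Icc 1 N, a n) * w (N + 1) := by
  induction N with
  | zero => simp
  | succ N ih =>
    rw [sum_Icc_succ_top (by omega), sum_Icc_succ_top (by omega), ih,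
      sum_Icc_succ_top (f := fun n => a n) (by omega)]
    ring

theorem tele (w : ℕ → ℝ) (N : ℕ) : ∑ m ∈ Icc 1 N, (w m - w (m + 1)) = w 1 - w (N + 1) := by
  induction N with
  | zero => simp
  | succ N ih =>
    rw [sum_Icc_succ_top (by omega), ih]
    ring

/-- a discrete intermediate value theorem -/
theorem divt (f : ℕ → ℝ) (l r : ℕ) (T J : ℝ) (hT : 0 ≤ T) (hJ : 0 ≤ J)
    (hf : ∀ n, l ≤ n → n < r → |f (n + 1) - f n| ≤ J)
    (h1 : ∃ m, l ≤ m ∧ m ≤ r ∧ f m ≤ T) (h2 : ∃ m, l ≤ m ∧ m ≤ r ∧ -T ≤ f m) :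
    ∃ m, l ≤ m ∧ m ≤ r ∧ |f m| ≤ T + J := by
  by_contra hcon
  push Not at hcon
  have hlr : l ≤ r := by
    obtain ⟨m, ha, hb, _⟩ := h1
    omega
  -- all values have the sign of the first one
  have key : (∀ n, l ≤ n → n ≤ r → T + J < f n) ∨ (∀ n, l ≤ n → n ≤ r → f n < -(T + J)) := by
    have h0 := hcon l le_rfl hlr
    rw [lt_abs] at h0
    rcases h0 with h0 | h0
    · left
      intro n hn
      induction n, hn using Nat.le_induction with
      | base => exact fun _ => h0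
      | succ n hn ih =>
        intro hr
        have h3 := ih (by omega)
        have h4 := hf n hn (by omega)
        have h5 := hcon (n + 1) (by omega) hr
        rw [lt_abs] at h5
        rw [abs_le] at h4
        rcases h5 with h5 | h5
        · exact h5
        · linarith [h4.1]
    · right
      intro n hn
      induction n, hn using Nat.le_induction with
      | base => exact fun _ => by linarith
      | succ n hn ih =>
        intro hr
        have h3 := ih (by omega)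
        have h4 := hf n hn (by omega)
        have h5 := hcon (n + 1) (by omega) hr
        rw [lt_abs] at h5
        rw [abs_le] at h4
        rcases h5 with h5 | h5
        · linarith [h4.2]
        · linarith
  obtain ⟨m1, a1, b1, c1⟩ := h1
  obtain ⟨m2, a2, b2, c2⟩ := h2
  rcases key with key | key
  · linarith [key m1 a1 b1]
  · linarith [key m2 a2 b2]

/-- one side: if the smoothed sum is at most `T` then some partial sum is at most `T` -/
theorem one_side {A : ℝ} (hA : 1 < A) {W : ℝ → ℝ} (h0 : ∀ y ≤ 1, W y = 0) (h1 : ∀ y, A ≤ y → W y = 1)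
    (hm : Monotone W) (a : ℕ → ℝ) (T x : ℝ) (hx : A ≤ x)
    (hT : ∑ n ∈ Icc 1 ⌊x⌋₊, a n * W (x / n) ≤ T) :
    ∃ m : ℕ, x / A - 1 ≤ m ∧ (m : ℝ) ≤ x ∧ 1 ≤ m ∧ ∑ n ∈ Icc 1 m, a n ≤ T := by
  by_contra hcon
  push Not at hcon
  have hx0 : 0 < x := by linarith
  set N := ⌊x⌋₊ with hN
  have hNx : (N : ℝ) ≤ x := Nat.floor_le hx0.le
  have hxN : x < (N + 1 : ℕ) := by
    push_cast
    exact Nat.lt_floor_add_one x
  set w : ℕ → ℝ := fun n => W (x / n) with hw
  have hwN : w (N + 1) = 0 := by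
    refine h0 _ ?_
    rw [div_le_one (by positivity)]
    exact hxN.le
  have hw1 : w 1 = 1 := by
    refine h1 _ ?_
    simpa using hx
  have hd : ∀ m : ℕ, 1 ≤ m → 0 ≤ w m - w (m + 1) := by
    intro m hm1
    have hm0 : (0 : ℝ) < m := by exact_mod_cast hm1
    have : x / ((m + 1 : ℕ) : ℝ) ≤ x / (m : ℝ) := by
      apply div_le_div_of_nonneg_left hx0.le hm0
      push_cast
      linarith
    have := hm this
    simp only [hw]
    linarith
  have hz : ∀ m : ℕ, 1 ≤ m → ((m : ℝ) < x / A - 1) → w m - w (m + 1) = 0 := by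
    intro m hm1 hlt
    have hm0 : (0 : ℝ) < m := by exact_mod_cast hm1
    have hA0 : 0 < A := by linarith
    have e1 : A ≤ x / ((m + 1 : ℕ) : ℝ) := by
      rw [le_div_iff₀ (by positivity)]
      have h2 : ((m + 1 : ℕ) : ℝ) < x / A := by push_cast; linarith
      rw [lt_div_iff₀ hA0] at h2
      linarith
    have e2 : A ≤ x / (m : ℝ) := by
      refine e1.trans ?_
      apply div_le_div_of_nonneg_left hx0.le hm0
      push_cast
      linarith
    simp only [hw]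
    rw [h1 _ e1, h1 _ e2, sub_self]
  have hab := abel a w N
  rw [hwN, mul_zero, add_zero] at hab
  have htel := tele w N
  rw [hwN, hw1, sub_zero] at htel
  have hle : ∀ m ∈ Icc 1 N, T * (w m - w (m + 1)) ≤ (∑ n ∈ Icc 1 m, a n) * (w m - w (m + 1)) := by
    intro m hmm
    rw [mem_Icc] at hmm
    by_cases h : (m : ℝ) < x / A - 1
    · rw [hz m hmm.1 h]; simp
    · have hmx : (m : ℝ) ≤ x := by
        refine le_trans ?_ hNx
        exact_mod_cast hmm.2
      exact mul_le_mul_of_nonneg_right (hcon m (not_lt.1 h) hmx hmm.1).le (hd m hmm.1)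
  -- some weight is positive
  have hpos : ∃ m ∈ Icc 1 N, 0 < w m - w (m + 1) := by
    by_contra hno
    push Not at hno
    have : ∑ m ∈ Icc 1 N, (w m - w (m + 1)) ≤ 0 := sum_nonpos hno
    linarith
  obtain ⟨m0, hm0, hm0p⟩ := hpos
  have hlt : ∑ m ∈ Icc 1 N, T * (w m - w (m + 1)) <
      ∑ m ∈ Icc 1 N, (∑ n ∈ Icc 1 m, a n) * (w m - w (m + 1)) := by
    refine sum_lt_sum hle ⟨m0, hm0, ?_⟩
    rw [mem_Icc] at hm0
    have h : ¬ (m0 : ℝ) < x / A - 1 := fun h => by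
      rw [hz m0 hm0.1 h] at hm0p
      exact lt_irrefl _ hm0p
    have hmx : (m0 : ℝ) ≤ x := by
      refine le_trans ?_ hNx
      exact_mod_cast hm0.2
    exact mul_lt_mul_of_pos_right (hcon m0 (not_lt.1 h) hmx hm0.1) hm0p
  rw [← mul_sum, htel, mul_one, ← hab] at hlt
  linarith

/-- **Points with small partial sums.** -/
theorem point {A : ℝ} (hA : 1 < A) {W : ℝ → ℝ} (h0 : ∀ y ≤ 1, W y = 0) (h1 : ∀ y, A ≤ y → W y = 1)
    (hm : Monotone W) (a : ℕ → ℝ) (T J x : ℝ) (hx : A ≤ x) (hJ : 0 ≤ J)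
    (hT : |∑ n ∈ Icc 1 ⌊x⌋₊, a n * W (x / n)| ≤ T) (ha : ∀ n : ℕ, 1 ≤ n → (n : ℝ) ≤ x → |a n| ≤ J) :
    ∃ m : ℕ, x / A - 1 ≤ m ∧ (m : ℝ) ≤ x ∧ |∑ n ∈ Icc 1 m, a n| ≤ T + J := by
  have hx0 : 0 < x := by linarith
  have hT0 : 0 ≤ T := (abs_nonneg _).trans hT
  rw [abs_le] at hT
  obtain ⟨m1, p1, q1, _, r1⟩ := one_side hA h0 h1 hm a T x hx hT.2
  obtain ⟨m2, p2, q2, _, r2⟩ := one_side hA h0 h1 hm (fun n => -a n) T x hx (by
    simp only [neg_mul, sum_neg_distrib]
    linarith [hT.1])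
  rw [sum_neg_distrib] at r2
  have hceil : ∀ m : ℕ, x / A - 1 ≤ m ↔ ⌈x / A - 1⌉₊ ≤ m := fun m => (Nat.ceil_le).symm
  have hfl : ∀ m : ℕ, (m : ℝ) ≤ x ↔ m ≤ ⌊x⌋₊ := fun m => (Nat.le_floor_iff hx0.le).symm
  obtain ⟨m, hl, hr, hmm⟩ := divt (fun m => ∑ n ∈ Icc 1 m, a n) ⌈x / A - 1⌉₊ ⌊x⌋₊ T J hT0 hJ
    (fun n _ hn => by
      have e : ∑ k ∈ Icc 1 (n + 1), a k - ∑ k ∈ Icc 1 n, a k = a (n + 1) := by
        rw [sum_Icc_succ_top (by omega)]
        ring
      rw [e]
      exact ha (n + 1) (by omega) ((hfl _).2 (by omega)))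
    ⟨m1, (hceil _).1 p1, (hfl _).1 q1, r1⟩ ⟨m2, (hceil _).1 p2, (hfl _).1 q2, by linarith⟩
  exact ⟨m, (hceil _).2 hl, (hfl _).2 hr, hmm⟩

end Pool.Agent.H6.KW
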