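import Pool.Agent.H6.KW.Chars

/-!
# The coefficients with the contribution of the real zeros removed
-/

set_option autoImplicit false

open Finset Filter Topology
open H353 H353.D
open ArithmeticFunction (vonMangoldt)

namespace Pool.Agent.H6.KW

noncomputable section

theorem pb_of_le {f g : ℂ → ℂ} (hf : PB f) (h : ∀ s : ℂ, 1 / 2 ≤ s.re → ‖g s‖ ≤ ‖f s‖) : PB g := by
  obtain ⟨C, k, hC, hk⟩ := hf
  exact ⟨C, k, hC, fun s h1 h2 => (h s h1).trans (hk s h1 h2)⟩

theorem pb_low {G : ℂ → ℂ} {M : ℕ} (h : PB (fun s => (s + 1) ^ M * G s)) :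
    PB (fun s => (s + 1) ^ (M - 1) * G s) := by
  refine pb_of_le h fun s hs => ?_
  rw [norm_mul, norm_mul, norm_pow, norm_pow]
  refine mul_le_mul_of_nonneg_right (pow_le_pow_right₀ ?_ (by omega)) (norm_nonneg _)
  have h1 := Complex.abs_re_le_norm (s + 1)
  rw [Complex.add_re, Complex.one_re, abs_of_nonneg (by linarith)] at h1
  linarith

theorem pb_deriv {G : ℂ → ℂ} (hG : Differentiable ℂ G) {M : ℕ} (h : LF (fun s => (s + 1) ^ M * G s)) :
    PB (fun s => (s + 1) ^ M * deriv G s) := by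
  have e : (fun s => (s + 1) ^ M * deriv G s) =
      fun s => deriv (fun s => (s + 1) ^ M * G s) s + (-(M : ℂ)) * ((s + 1) ^ (M - 1) * G s) := by
    funext s
    have h1 : HasDerivAt (fun s : ℂ => (s + 1) ^ M) (M * (s + 1) ^ (M - 1) * 1) s :=
      ((hasDerivAt_id s).add_const 1).pow M
    have h2 := h1.mul (hG s).hasDerivAt
    have h3 : deriv (fun s => (s + 1) ^ M * G s) s =
        M * (s + 1) ^ (M - 1) * 1 * G s + (s + 1) ^ M * deriv G s := h2.deriv
    rw [h3]
    ring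
  rw [e]
  exact h.pb'.add ((PB.const _).mul (pb_low h.pb))

theorem pb_shift {b : ℝ} (hb : b < 1) (hb0 : 0 < b) : PB (fun s => dslope FF 1 (s + 1 - b)) := by
  refine ⟨5 + ‖deriv FF 1‖, 1, by positivity, fun s h1 h2 => ?_⟩
  have h3 := FF_dslope_bound (s + 1 - b) (by simp; linarith)
  have h4 : ‖s + 1 - (b : ℂ)‖ ≤ ‖s‖ + 1 := by
    have e : s + 1 - (b : ℂ) = s + ((1 - b : ℝ) : ℂ) := by push_cast; ring
    rw [e]
    refine (norm_add_le _ _).trans ?_
    rw [Complex.norm_real, Real.norm_eq_abs, abs_of_pos (by linarith)]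
    linarith
  have h5 := norm_nonneg s
  have h6 := norm_nonneg (deriv FF 1)
  rw [pow_one]
  nlinarith

variable {q : ℕ} [NeZero q]

/-- the numerator -/
def Rr (B : Finset ℝ) (M : DirichletCharacter ℂ q → ℕ) (G : DirichletCharacter ℂ q → ℂ → ℂ)
    (a : ZMod q) (s : ℂ) : ℂ :=
  (q.totient : ℂ)⁻¹ * (-(∑ χ : DirichletCharacter ℂ q, χ a⁻¹ * (((s + 1) ^ (M χ) * deriv (G χ) s) *
    ∏ ψ ∈ (Finset.univ : Finset (DirichletCharacter ℂ q)).erase χ, (s + 1) ^ (M ψ) * G ψ s)) +
    (∏ χ : DirichletCharacter ℂ q, (s + 1) ^ (M χ) * G χ s) *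
      ((∑ b ∈ B, kap a b * dslope FF 1 (s + 1 - b)) - dslope FF 1 s))

/-- the coefficients -/
def ar (B : Finset ℝ) (a : ZMod q) (n : ℕ) : ℝ :=
  aP a n + (q.totient : ℝ)⁻¹ * ∑ b ∈ B, (kap a b).re * pw b n

theorem summable_aP (a : ZMod q) {s : ℂ} (hs : 1 < s.re) :
    LSeriesSummable (fun n => (aP a n : ℂ)) s := by
  have hsum1 : LSeriesSummable (fun n => ((vonMangoldt.residueClass a n : ℝ) : ℂ)) s :=
    LSeriesSummable_of_abscissaOfAbsConv_lt_re
      (lt_of_le_of_lt (vonMangoldt.abscissaOfAbsConv_residueClass_le_one a) (by exact_mod_cast hs))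
  have hsum2 : LSeriesSummable (fun _ => ((q.totient : ℂ)⁻¹)) s :=
    LSeriesSummable_of_bounded_of_one_lt_re (m := ‖(q.totient : ℂ)⁻¹‖) (fun n _ => le_rfl) hs
  refine (LSeriesSummable_congr s fun {n} hn => ?_).1 (hsum1.sub hsum2)
  simp only [aP, if_neg hn, Pi.sub_apply]
  push_cast
  rfl

theorem LSeries_ar (B : Finset ℝ) (hB : ∀ b ∈ B, 1 / 2 < b ∧ b < 1) (a : ZMod q) {s : ℂ}
    (hs : 1 < s.re) : LSeries (fun n => (ar B a n : ℂ)) s =
      LSeries (fun n => (aP a n : ℂ)) s +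
        (q.totient : ℂ)⁻¹ * ∑ b ∈ B, kap a b * riemannZeta (s + 1 - b) := by
  have h1 := summable_aP a hs
  unfold LSeriesSummable at h1
  have hterm : ∀ n, LSeries.term (fun n => (ar B a n : ℂ)) s n =
      LSeries.term (fun n => (aP a n : ℂ)) s n +
        ∑ b ∈ B, ((q.totient : ℂ)⁻¹ * kap a b) * LSeries.term (fun n => ((pw b n : ℝ) : ℂ)) s n := by
    intro n
    by_cases hn : n = 0
    · subst hn
      simp
    · simp only [LSeries.term_of_ne_zero hn]
      have e1 : ((ar B a n : ℝ) : ℂ) = (aP a n : ℂ) +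
          ∑ b ∈ B, ((q.totient : ℂ)⁻¹ * kap a b) * ((pw b n : ℝ) : ℂ) := by
        unfold ar
        push_cast
        rw [Finset.mul_sum]
        congr 1
        refine Finset.sum_congr rfl fun b _ => ?_
        rw [kap_re]
        ring
      rw [e1, add_div, Finset.sum_div]
      congr 1
      exact Finset.sum_congr rfl fun b _ => by ring
  unfold LSeries
  rw [tsum_congr hterm, Summable.tsum_add h1, Summable.tsum_finsetSum, Finset.mul_sum]
  · congr 1
    refine Finset.sum_congr rfl fun b hb => ?_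
    rw [tsum_mul_left]
    have h3 := LSeries_pw (hB b hb).2 hs
    unfold LSeries at h3
    rw [h3]
    ring
  · intro b hb
    have h3 := summable_pw (hB b hb).2 hs
    unfold LSeriesSummable at h3
    exact h3.mul_left _
  · refine summable_sum fun b hb => ?_
    have h3 := summable_pw (hB b hb).2 hs
    unfold LSeriesSummable at h3
    exact h3.mul_left _

theorem af_red {a : ZMod q} (ha : IsUnit a) (B : Finset ℝ) (hB : ∀ b ∈ B, 1 / 2 < b ∧ b < 1)
    (M : DirichletCharacter ℂ q → ℕ) (G : DirichletCharacter ℂ q → ℂ → ℂ)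
    (hGd : ∀ χ, Differentiable ℂ (G χ))
    (hFG : ∀ χ v, Fc χ v = (∏ b ∈ B, (v - (b : ℂ)) ^ D.mu (Fc χ) (b : ℂ)) * G χ v)
    (hLF : ∀ χ, LF (fun s => (s + 1) ^ (M χ) * G χ s)) :
    AF (fun s => ∏ χ : DirichletCharacter ℂ q, (s + 1) ^ (M χ) * G χ s) (ar B a) (Rr B M G a) where
  zero := by
    unfold ar
    rw [(af_class ha).zero]
    simp [pw]
  sum := by
    set K : ℝ := (q.totient : ℝ)⁻¹ * ∑ b ∈ B, |(kap a b).re| with hK
    have h2 : Summable (fun n : ℕ => 1 / (n : ℝ) ^ 2) := Real.summable_one_div_nat_pow.2 (by norm_num)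
    refine Summable.of_nonneg_of_le (fun n => by positivity) (fun n => ?_)
      ((af_class ha).sum.add (h2.mul_left K))
    have e : |aP a n| / (n:ℝ) ^ 2 + K * (1 / (n:ℝ) ^ 2) = (|aP a n| + K) / (n:ℝ) ^ 2 := by ring
    rw [e]
    refine div_le_div_of_nonneg_right ?_ (by positivity)
    unfold ar
    refine (abs_add_le _ _).trans ?_
    gcongr
    rw [abs_mul, abs_of_nonneg (by positivity : (0:ℝ) ≤ (q.totient : ℝ)⁻¹)]
    rw [hK]
    refine mul_le_mul_of_nonneg_left ?_ (by positivity)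
    refine (Finset.abs_sum_le_sum_abs _ _).trans (Finset.sum_le_sum fun b hb => ?_)
    rw [abs_mul]
    exact mul_le_of_le_one_right (abs_nonneg _) (pw_abs b (hB b hb).2.le n)
  rdiff := by
    have h2 : ∀ χ : DirichletCharacter ℂ q, Differentiable ℂ (deriv (G χ)) := fun χ s =>
      ((hGd χ).analyticAt s).deriv.differentiableAt
    have h3 := FF_ds_diff
    unfold Rr
    fun_prop
  rbound := by
    have h5 : PB (Rr B M G a) := by
      unfold Rr
      have h4 : PB (fun s : ℂ => ∏ χ : DirichletCharacter ℂ q, (s + 1) ^ (M χ) * G χ s) :=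
        PB.prod Finset.univ (fun (χ : DirichletCharacter ℂ q) (s : ℂ) => (s + 1) ^ (M χ) * G χ s)
          fun χ _ => (hLF χ).pb
      have hneg : ∀ f : ℂ → ℂ, PB f → PB (fun s => -f s) := fun f hf =>
        pb_of_le hf fun s _ => by rw [norm_neg]
      refine (PB.const _).mul (PB.add (hneg _ ?_) (h4.mul ?_))
      · refine PB.sum _ _ fun χ _ => (PB.const _).mul ((pb_deriv (hGd χ) (hLF χ)).mul ?_)
        exact PB.prod _ _ fun ψ _ => (hLF ψ).pb
      · have h6 : PB (fun s : ℂ => (∑ b ∈ B, kap a b * dslope FF 1 (s + 1 - b)) + -dslope FF 1 s) := by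
          refine PB.add ?_ (hneg _ FF_ds_pb)
          exact PB.sum _ _ fun b hb => (PB.const _).mul (pb_shift (hB b hb).2 (by linarith [(hB b hb).1]))
        exact pb_of_le h6 fun s _ => by rw [sub_eq_add_neg]
    exact h5
  series := by
    classical
    intro s hs
    have hs1 : s ≠ 1 := by
      rintro rfl
      simp at hs
    have hF : ∀ χ : DirichletCharacter ℂ q, Fc χ s ≠ 0 := fun χ => (LF_Fc χ).ne s hs.le
    have hG : ∀ χ : DirichletCharacter ℂ q, G χ s ≠ 0 := fun χ h0 => hF χ (by rw [hFG, h0, mul_zero])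
    have hsb : ∀ b ∈ B, s - (b : ℂ) ≠ 0 := by
      intro b hb h0
      have h1 := congrArg Complex.re h0
      simp at h1
      linarith [(hB b hb).2]
    have hPq : Pq q s ≠ 0 := Finset.prod_ne_zero_iff.2 fun χ _ => hF χ
    -- the series of `aP`
    have e7 : Pq q s * ∑ χ : DirichletCharacter ℂ q, χ a⁻¹ * (deriv (Fc χ) s / Fc χ s) =
        ∑ χ : DirichletCharacter ℂ q, χ a⁻¹ * (deriv (Fc χ) s *
          ∏ ψ ∈ (Finset.univ : Finset (DirichletCharacter ℂ q)).erase χ, Fc ψ s) := by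
      rw [Finset.mul_sum]
      refine Finset.sum_congr rfl fun χ _ => ?_
      unfold Pq
      rw [← Finset.mul_prod_erase Finset.univ (fun χ : DirichletCharacter ℂ q => Fc χ s) (Finset.mem_univ χ)]
      have := hF χ
      field_simp
    have e1 : LSeries (fun n => (aP a n : ℂ)) s = -(q.totient : ℂ)⁻¹ *
        ((∑ χ : DirichletCharacter ℂ q, χ a⁻¹ * (deriv (Fc χ) s / Fc χ s)) + dslope FF 1 s) := by
      refine mul_left_cancel₀ hPq ?_
      rw [(af_class ha).series s hs]
      unfold Rq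
      rw [← e7]
      ring
    have e2 : ∀ χ : DirichletCharacter ℂ q, deriv (Fc χ) s / Fc χ s =
        (∑ b ∈ B, (D.mu (Fc χ) (b : ℂ) : ℂ) / (s - b)) + deriv (G χ) s / G χ s := by
      intro χ
      have f1 : Fc χ = fun v => (∏ b ∈ B, (v - (b : ℂ)) ^ D.mu (Fc χ) (b : ℂ)) * G χ v := funext (hFG χ)
      have f2 : deriv (Fc χ) s / Fc χ s = logDeriv (fun v => (∏ b ∈ B, (v - (b : ℂ)) ^ D.mu (Fc χ) (b : ℂ)) *
          G χ v) s := by
        rw [← logDeriv_apply]
        exact congrArg (fun f => logDeriv f s) f1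
      have f3 : ∀ b ∈ B, (s - (b : ℂ)) ^ D.mu (Fc χ) (b : ℂ) ≠ 0 := fun b hb => pow_ne_zero _ (hsb b hb)
      rw [f2, logDeriv_mul s (Finset.prod_ne_zero_iff.2 f3) (hG χ) (by fun_prop) (hGd χ s),
        logDeriv_prod f3 (fun b _ => by fun_prop), logDeriv_apply (G χ)]
      congr 1
      refine Finset.sum_congr rfl fun b _ => ?_
      rw [logDeriv_fun_pow (by fun_prop), logDeriv_apply]
      have f4 : deriv (fun v : ℂ => v - (b : ℂ)) s = 1 := by
        rw [deriv_sub_const]
        exact deriv_id s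
      rw [f4]
      ring
    have e4 : ∀ b ∈ B, riemannZeta (s + 1 - b) = dslope FF 1 (s + 1 - b) + 1 / (s - b) := by
      intro b hb
      have g1 : s + 1 - (b : ℂ) ≠ 1 := fun h0 => hsb b hb (by linear_combination h0)
      rw [dslope_of_ne _ g1, slope_def_field, show FF 1 = 1 from ZU.J_g2b.FF_one,
        show FF (s + 1 - b) = (s + 1 - b - 1) * riemannZeta (s + 1 - b) from ZU.J_g2b.FF_ne g1]
      have g2 : s + 1 - (b : ℂ) - 1 = s - b := by ring
      rw [g2]
      have := hsb b hb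
      field_simp
      ring
    have e5 : ∑ χ : DirichletCharacter ℂ q, χ a⁻¹ * (∑ b ∈ B, (D.mu (Fc χ) (b : ℂ) : ℂ) / (s - b)) =
        ∑ b ∈ B, kap a b * (1 / (s - b)) := by
      simp_rw [Finset.mul_sum]
      rw [Finset.sum_comm]
      refine Finset.sum_congr rfl fun b _ => ?_
      unfold kap
      rw [Finset.sum_mul]
      exact Finset.sum_congr rfl fun χ _ => by ring
    have e6 : ∀ χ : DirichletCharacter ℂ q,
        (∏ χ : DirichletCharacter ℂ q, (s + 1) ^ (M χ) * G χ s) * (deriv (G χ) s / G χ s) =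
          ((s + 1) ^ (M χ) * deriv (G χ) s) *
            ∏ ψ ∈ (Finset.univ : Finset (DirichletCharacter ℂ q)).erase χ, (s + 1) ^ (M ψ) * G ψ s := by
      intro χ
      rw [← Finset.mul_prod_erase Finset.univ (fun χ : DirichletCharacter ℂ q => (s + 1) ^ (M χ) * G χ s)
        (Finset.mem_univ χ)]
      have := hG χ
      field_simp
    have e8 : ∑ χ : DirichletCharacter ℂ q, χ a⁻¹ * (deriv (Fc χ) s / Fc χ s) =
        (∑ b ∈ B, kap a b * (1 / (s - b))) +
          ∑ χ : DirichletCharacter ℂ q, χ a⁻¹ * (deriv (G χ) s / G χ s) := by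
      rw [← e5, ← Finset.sum_add_distrib]
      refine Finset.sum_congr rfl fun χ _ => ?_
      rw [e2 χ]
      ring
    have e9 : ∑ b ∈ B, kap a b * riemannZeta (s + 1 - b) =
        (∑ b ∈ B, kap a b * dslope FF 1 (s + 1 - b)) + ∑ b ∈ B, kap a b * (1 / (s - b)) := by
      rw [← Finset.sum_add_distrib]
      refine Finset.sum_congr rfl fun b hb => ?_
      rw [e4 b hb]
      ring
    have e10 : (∏ χ : DirichletCharacter ℂ q, (s + 1) ^ (M χ) * G χ s) *
        (∑ χ : DirichletCharacter ℂ q, χ a⁻¹ * (deriv (G χ) s / G χ s)) =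
        ∑ χ : DirichletCharacter ℂ q, χ a⁻¹ * (((s + 1) ^ (M χ) * deriv (G χ) s) *
          ∏ ψ ∈ (Finset.univ : Finset (DirichletCharacter ℂ q)).erase χ, (s + 1) ^ (M ψ) * G ψ s) := by
      rw [Finset.mul_sum]
      refine Finset.sum_congr rfl fun χ _ => ?_
      rw [← e6 χ]
      ring
    rw [LSeries_ar B hB a hs, e1, e8, e9]
    unfold Rr
    rw [← e10]
    ring

end

end Pool.Agent.H6.KW
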