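import Pool.Graph.R_pool_sql_team_seeded_f0cf7b00.H353R5.B8

/-!
# No real zeros for the moduli 1, 2, 3, 4, 6
-/

set_option autoImplicit false

open Complex MeasureTheory Filter Topology Set
open Pool.Agent.H307R2

namespace Pool.Agent.H6.KW

noncomputable section

/-- the trivial character modulo `q` -/
theorem triv_ne (q : ℕ) [NeZero q] (s : ℝ) (h0 : 0 < s) (h1 : s < 1) :
    DirichletCharacter.LFunction (1 : DirichletCharacter ℂ q) (s : ℂ) ≠ 0 := by
  have hs1 : (s : ℂ) ≠ 1 := by
    intro h
    have : s = 1 := by exact_mod_cast h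
    linarith
  have h2 := DirichletCharacter.LFunctionTrivChar_eq_mul_riemannZeta (N := q) hs1
  have h2' : DirichletCharacter.LFunction (1 : DirichletCharacter ℂ q) (s : ℂ) =
      (∏ p ∈ q.primeFactors, (1 - (p : ℂ) ^ (-(s:ℂ)))) * riemannZeta (s : ℂ) := h2
  rw [h2']
  refine mul_ne_zero ?_ ?_
  · rw [Finset.prod_ne_zero_iff]
    intro p hp h3
    have hp2 := (Nat.prime_of_mem_primeFactors hp).two_le
    have h4 : (p : ℂ) ^ (-(s:ℂ)) = 1 := (sub_eq_zero.1 h3).symm
    have h5 := congrArg norm h4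
    rw [Complex.norm_natCast_cpow_of_pos (by omega), norm_one] at h5
    simp only [neg_re, ofReal_re] at h5
    have h6 : (p : ℝ) ^ (-s) < 1 :=
      Real.rpow_lt_one_of_one_lt_of_neg (by exact_mod_cast (by omega : 1 < p)) (by linarith)
    linarith
  · intro h3
    have h4 := H353.FF_real_ne s h0
    apply h4
    have h5 : H353.FF (s : ℂ) = ((s : ℂ) - 1) * riemannZeta (s : ℂ) := ZU.J_g2b.FF_ne hs1
    rw [h5, h3, mul_zero]

theorem sum_le_one {q : ℕ} [NeZero q] (χ : DirichletCharacter ℂ q) (hχ : χ ≠ 1)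
    (hq : ∀ m : ℕ, m < q → ‖∑ k ∈ Finset.Ioc 1 (1 + m), χ (k : ZMod q)‖ ≤ 1) (m : ℕ) :
    ‖∑ k ∈ Finset.Ioc 1 (1 + m), χ (k : ZMod q)‖ ≤ 1 := by
  induction m using Nat.strong_induction_on with
  | _ m ih =>
    by_cases h : m < q
    · exact hq m h
    · push Not at h
      have hq0 : 0 < q := Nat.pos_of_ne_zero (NeZero.ne q)
      have h1 : ∑ k ∈ Finset.Ioc 1 (1 + m), χ (k : ZMod q) =
          ∑ k ∈ Finset.Ioc 1 (1 + (m - q)), χ (k : ZMod q) +
          ∑ k ∈ Finset.Ioc (1 + (m - q)) (1 + (m - q) + q), χ (k : ZMod q) := by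
        have e : 1 + (m - q) + q = 1 + m := by omega
        rw [e]
        exact (Finset.sum_Ioc_consecutive _ (by omega) (by omega)).symm
      rw [h1, sum_block (fun a => χ a), MulChar.sum_eq_zero_of_ne_one hχ, add_zero]
      exact ih (m - q) (by omega)

theorem L_ne_of_sum {q : ℕ} [NeZero q] (χ : DirichletCharacter ℂ q) (hχ : χ ≠ 1)
    (hs1 : ∀ m : ℕ, ‖∑ k ∈ Finset.Ioc 1 (1 + m), χ (k : ZMod q)‖ ≤ 1) (s : ℝ) (h0 : 0 < s) :
    χ.LFunction (s : ℂ) ≠ 0 := by
  have hE : ∀ t : ℝ, ‖Ech χ 1 t‖ ≤ 1 := by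
    intro t
    unfold Ech
    rcases le_total 1 ⌊t⌋₊ with h | h
    · obtain ⟨m, hm⟩ := Nat.exists_eq_add_of_le h
      rw [hm]
      exact hs1 m
    · rw [Finset.Ioc_eq_empty_of_le h, Finset.sum_empty, norm_zero]
      norm_num
  have hre : 0 < ((s : ℂ)).re := by simpa using h0
  have h1 := LFunction_eq hχ (N := 1) le_rfl hre
  simp only [Finset.Icc_self, Finset.sum_singleton, Nat.cast_one, map_one, one_cpow, mul_one] at h1
  have hTM : TM 1 (Ech χ 1) (s : ℂ) = TM 2 (Ech χ 1) (s : ℂ) := by
    unfold TM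
    have hint : IntegrableOn (fun t : ℝ => Ech χ 1 t * (t : ℂ) ^ (-((s : ℂ) + 1))) (Ioi ((1 : ℕ) : ℝ)) :=
      TM_integrable le_rfl (Ech_measurable χ 1) hE hre
    have hsp : Ioi ((1 : ℕ) : ℝ) = Ioc (1 : ℝ) 2 ∪ Ioi ((2 : ℕ) : ℝ) := by
      rw [Nat.cast_one, Nat.cast_ofNat, Ioc_union_Ioi_eq_Ioi (by norm_num)]
    rw [hsp, setIntegral_union (by
      rw [Set.disjoint_left]
      intro t ht ht'
      have h5 : t ≤ 2 := ht.2
      have h6 : ((2 : ℕ) : ℝ) < t := ht'
      norm_num at h6
      linarith) measurableSet_Ioi (hint.mono_set (by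
        intro t ht
        have h6 : (1:ℝ) < t := ht.1
        simpa using h6)) (hint.mono_set (by
        intro t ht
        have h6 : ((2 : ℕ) : ℝ) < t := ht
        norm_num at h6
        have : (1:ℝ) < t := by linarith
        simpa using this))]
    have hz : ∫ t in Ioc (1:ℝ) 2, Ech χ 1 t * (t : ℂ) ^ (-((s : ℂ) + 1)) = 0 := by
      rw [integral_Ioc_eq_integral_Ioo]
      refine setIntegral_eq_zero_of_forall_eq_zero fun t ht => ?_
      have : ⌊t⌋₊ = 1 := by
        rw [Nat.floor_eq_iff (by linarith [ht.1])]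
        constructor
        · simpa using ht.1.le
        · have := ht.2
          norm_num
          exact this
      unfold Ech
      rw [this]
      simp
    rw [hz, zero_add]
  rw [hTM] at h1
  have h2 := TM_norm_le (N := 2) (by norm_num) (E := Ech χ 1) (B := 1) hE hre
  intro h3
  rw [h3] at h1
  have h4 : (s : ℂ) * TM 2 (Ech χ 1) (s : ℂ) = -1 := by
    linear_combination -h1
  have h5 := congrArg norm h4
  rw [norm_mul, norm_neg, norm_one, Complex.norm_real, Real.norm_eq_abs, abs_of_pos h0] at h5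
  simp only [ofReal_re] at h2
  have h6 : s * ‖TM 2 (Ech χ 1) (s : ℂ)‖ ≤ s * (1 * (((2:ℕ) : ℝ) ^ (-s) / s)) :=
    mul_le_mul_of_nonneg_left h2 h0.le
  have h7 : s * (1 * (((2:ℕ) : ℝ) ^ (-s) / s)) = (2:ℝ) ^ (-s) := by
    field_simp
    norm_num
  have h8 : (2:ℝ) ^ (-s) < 1 :=
    Real.rpow_lt_one_of_one_lt_of_neg (by norm_num) (by linarith)
  rw [h7] at h6
  linarith

theorem char_zero {q : ℕ} (χ : DirichletCharacter ℂ q) (n : ℕ) (h : ¬ Nat.Coprime n q) :
    χ (n : ZMod q) = 0 :=
  χ.map_nonunit (fun hu => h ((ZMod.isUnit_iff_coprime n q).1 hu))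

theorem small_ne {q : ℕ} [NeZero q] (hq : q = 1 ∨ q = 2 ∨ q = 3 ∨ q = 4 ∨ q = 6)
    (χ : DirichletCharacter ℂ q) (s : ℝ) (h0 : 0 < s) (h1 : s < 1) : χ.LFunction (s : ℂ) ≠ 0 := by
  by_cases hχ : χ = 1
  · rw [hχ]
    exact triv_ne q s h0 h1
  have key : ∀ m : ℕ, m < q → ‖∑ k ∈ Finset.Ioc 1 (1 + m), χ (k : ZMod q)‖ ≤ 1 := by
    rcases hq with rfl | rfl | rfl | rfl | rfl
    · exact absurd (Subsingleton.elim _ _) hχ
    · exfalso
      apply hχ
      have hsub : Subsingleton (ZMod 2)ˣ := Fintype.card_le_one_iff_subsingleton.1 (by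
        rw [ZMod.card_units_eq_totient, Nat.totient_two])
      ext a
      rw [Subsingleton.elim a 1]
      simp
    · intro m hm
      interval_cases m
      · simp
      · simp only [Nat.reduceAdd, Nat.Ioc_succ_singleton, Finset.sum_singleton]
        exact χ.norm_le_one _
      · have e : Finset.Ioc 1 (1 + 2) = {2, 3} := by decide
        rw [e, Finset.sum_pair (by norm_num), char_zero χ 3 (by decide), add_zero]
        exact χ.norm_le_one _
    · intro m hm
      interval_cases m
      · simp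
      · simp only [Nat.reduceAdd, Nat.Ioc_succ_singleton, Finset.sum_singleton]
        exact χ.norm_le_one _
      · have e : Finset.Ioc 1 (1 + 2) = {2, 3} := by decide
        rw [e, Finset.sum_pair (by norm_num), char_zero χ 2 (by decide), zero_add]
        exact χ.norm_le_one _
      · have e : Finset.Ioc 1 (1 + 3) = {2, 3, 4} := by decide
        rw [e, Finset.sum_insert (by decide), Finset.sum_pair (by norm_num), char_zero χ 2 (by decide),
          char_zero χ 4 (by decide), zero_add, add_zero]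
        exact χ.norm_le_one _
    · intro m hm
      interval_cases m
      · simp
      · simp only [Nat.reduceAdd, Nat.Ioc_succ_singleton, Finset.sum_singleton]
        exact χ.norm_le_one _
      · have e : Finset.Ioc 1 (1 + 2) = {2, 3} := by decide
        rw [e, Finset.sum_pair (by norm_num), char_zero χ 2 (by decide), zero_add]
        exact χ.norm_le_one _
      · have e : Finset.Ioc 1 (1 + 3) = {2, 3, 4} := by decide
        rw [e, Finset.sum_insert (by decide), Finset.sum_pair (by norm_num), char_zero χ 2 (by decide),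
          char_zero χ 4 (by decide), zero_add, add_zero]
        exact χ.norm_le_one _
      · have e : Finset.Ioc 1 (1 + 4) = {2, 3, 4, 5} := by decide
        rw [e, Finset.sum_insert (by decide), Finset.sum_insert (by decide), Finset.sum_pair (by norm_num),
          char_zero χ 2 (by decide), char_zero χ 3 (by decide), char_zero χ 4 (by decide), zero_add,
          zero_add, zero_add]
        exact χ.norm_le_one _
      · have e : Finset.Ioc 1 (1 + 5) = {2, 3, 4, 5, 6} := by decide
        rw [e, Finset.sum_insert (by decide), Finset.sum_insert (by decide), Finset.sum_insert (by decide),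
          Finset.sum_pair (by norm_num),
          char_zero χ 2 (by decide), char_zero χ 3 (by decide), char_zero χ 4 (by decide),
          char_zero χ 6 (by decide), zero_add, zero_add, zero_add, add_zero]
        exact χ.norm_le_one _
  exact L_ne_of_sum χ hχ (sum_le_one χ hχ key) s h0

end

end Pool.Agent.H6.KW
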