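import Pool.Agent.H6.KW.Series
import Pool.Agent.H6.KW.Local

/-!
# Windows for the primes in progressions, with the contribution of the real zeros removed
-/

set_option autoImplicit false

open Finset Filter Topology
open H353 H353.D
open ArithmeticFunction (vonMangoldt)

namespace Pool.Agent.H6.KW

noncomputable section

variable {q : ℕ} [NeZero q]

/-- a monotone cutoff for the reduced coefficients -/
theorem mono_red (B : Finset ℝ) (hB : ∀ b ∈ B, 1 / 2 < b ∧ b < 1)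
    (hBc : ∀ x : ℝ, 1 / 2 < x → x < 1 → Pq q (x : ℂ) = 0 → x ∈ B) {θ : ℝ}
    (h1 : 1 / 2 < θ) (h2 : θ < 1) :
    ∃ A, 1 < A ∧ ∃ W : ℝ → ℝ, CutW A W ∧ Monotone W ∧
      ∀ a : ZMod q, IsUnit a → bdW (ar B a) θ W := by
  have key : ∀ χ : DirichletCharacter ℂ q, ∃ G : ℂ → ℂ, Differentiable ℂ G ∧
      (∀ v, Fc χ v = (∏ b ∈ B, (v - (b : ℂ)) ^ D.mu (Fc χ) (b : ℂ)) * G v) ∧
      (∀ b ∈ B, G (b : ℂ) ≠ 0) ∧ LF (fun s => (s + 1) ^ (∑ b ∈ B, D.mu (Fc χ) (b : ℂ)) * G s) :=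
    fun χ => LF_div' (LF_Fc χ) B hB
  choose G hGd hFG hG0 hLF using key
  have hLT := LT_red B (fun χ => ∑ b ∈ B, D.mu (Fc χ) (b : ℂ)) G hGd hFG hLF
  have hr : ∀ x : ℝ, (θ + 1 / 2) / 2 ≤ x →
      (∏ χ : DirichletCharacter ℂ q, ((x : ℂ) + 1) ^ (∑ b ∈ B, D.mu (Fc χ) (b : ℂ)) * G χ x) ≠ 0 := by
    intro x hx
    have hx2 : 1 / 2 < x := by linarith
    refine Finset.prod_ne_zero_iff.2 fun χ _ => mul_ne_zero (pow_ne_zero _ ?_) ?_
    · intro h0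
      have h3 := congrArg Complex.re h0
      simp at h3
      linarith
    · intro h0
      have hF : Fc χ (x : ℂ) = 0 := by rw [hFG, h0, mul_zero]
      by_cases hx1 : 1 ≤ x
      · exact (LF_Fc χ).ne x (by simpa using hx1) hF
      · have hP : Pq q (x : ℂ) = 0 := Finset.prod_eq_zero (Finset.mem_univ χ) hF
        exact hG0 χ x (hBc x hx2 (not_le.1 hx1) hP) h0
  obtain ⟨A, hA, W, hW, hm, hb⟩ := W_mono hLT ((θ + 1 / 2) / 2) θ (by linarith) (by linarith) h2 hr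
  exact ⟨A, hA, W, hW, hm, fun a ha => hb _ _ (af_red ha B hB _ G hGd hFG hLF)⟩

/-- one step of the comparison of a sum with an integral -/
theorem pw_step (b : ℝ) (h0 : 0 < b) (h1 : b < 1) (N : ℕ) :
    b * ((N : ℝ) + 1) ^ (b - 1) ≤ ((N : ℝ) + 1) ^ b - (N : ℝ) ^ b ∧
    ((N : ℝ) + 2) ^ b - ((N : ℝ) + 1) ^ b ≤ b * ((N : ℝ) + 1) ^ (b - 1) := by
  have hN : (0:ℝ) < (N : ℝ) + 1 := by positivity
  have e0 : ((N : ℝ) + 1) ^ (b - 1) = ((N : ℝ) + 1) ^ b / ((N : ℝ) + 1) := by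
    rw [Real.rpow_sub hN, Real.rpow_one]
  have hp : 0 < ((N : ℝ) + 1) ^ b := by positivity
  constructor
  · have h2 := _root_.rpow_one_add_le_one_add_mul_self (s := -(1 / ((N : ℝ) + 1))) (by
      have : 1 / ((N : ℝ) + 1) ≤ 1 := by
        rw [div_le_one hN]
        have : (0:ℝ) ≤ N := Nat.cast_nonneg N
        linarith
      linarith) h0.le h1.le
    have e1 : (N : ℝ) = ((N : ℝ) + 1) * (1 + -(1 / ((N : ℝ) + 1))) := by
      field_simp
      ring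
    have e2 : (N : ℝ) ^ b = ((N : ℝ) + 1) ^ b * (1 + -(1 / ((N : ℝ) + 1))) ^ b := by
      rw [← Real.mul_rpow hN.le]
      · congr 1
      · have : 1 / ((N : ℝ) + 1) ≤ 1 := by
          rw [div_le_one hN]
          have : (0:ℝ) ≤ N := Nat.cast_nonneg N
          linarith
        linarith
    rw [e0, e2]
    have h3 := mul_le_mul_of_nonneg_left h2 hp.le
    have e3 : ((N : ℝ) + 1) ^ b * (1 + b * -(1 / ((N : ℝ) + 1))) =
        ((N : ℝ) + 1) ^ b - b * (((N : ℝ) + 1) ^ b / ((N : ℝ) + 1)) := by ring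
    rw [e3] at h3
    linarith
  · have h2 := _root_.rpow_one_add_le_one_add_mul_self (s := 1 / ((N : ℝ) + 1)) (by
      have : 0 < 1 / ((N : ℝ) + 1) := by positivity
      linarith) h0.le h1.le
    have e1 : (N : ℝ) + 2 = ((N : ℝ) + 1) * (1 + 1 / ((N : ℝ) + 1)) := by
      field_simp
      ring
    rw [e0, e1, Real.mul_rpow hN.le (by positivity)]
    have h3 := mul_le_mul_of_nonneg_left h2 hp.le
    have e3 : ((N : ℝ) + 1) ^ b * (1 + b * (1 / ((N : ℝ) + 1))) =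
        ((N : ℝ) + 1) ^ b + b * (((N : ℝ) + 1) ^ b / ((N : ℝ) + 1)) := by ring
    rw [e3] at h3
    linarith

theorem pw_nat (b : ℝ) (h0 : 0 < b) (h1 : b < 1) (N : ℕ) :
    b * ∑ n ∈ Icc 1 N, pw b n ≤ (N : ℝ) ^ b ∧
    ((N : ℝ) + 1) ^ b - 1 ≤ b * ∑ n ∈ Icc 1 N, pw b n := by
  induction N with
  | zero =>
    simp [Real.zero_rpow h0.ne']
  | succ N ih =>
    obtain ⟨h2, h3⟩ := pw_step b h0 h1 N
    have e : pw b (N + 1) = ((N : ℝ) + 1) ^ (b - 1) := by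
      unfold pw
      rw [if_neg (by omega)]
      push_cast
      rfl
    rw [Finset.sum_Icc_succ_top (by omega), e]
    push_cast
    have e4 : (N : ℝ) + 1 + 1 = (N : ℝ) + 2 := by ring
    rw [e4]
    constructor <;> nlinarith [ih.1, ih.2]

/-- sums of powers -/
theorem pw_sum (b : ℝ) (h0 : 1 / 2 < b) (h1 : b < 1) (z : ℝ) (hz : 1 ≤ z) :
    |∑ n ∈ Icc 1 ⌊z⌋₊, pw b n - z ^ b / b| ≤ 2 := by
  have hb : 0 < b := by linarith
  obtain ⟨h2, h3⟩ := pw_nat b hb h1 ⌊z⌋₊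
  have h4 : (⌊z⌋₊ : ℝ) ^ b ≤ z ^ b :=
    Real.rpow_le_rpow (Nat.cast_nonneg _) (Nat.floor_le (by linarith)) hb.le
  have h5 : z ^ b ≤ ((⌊z⌋₊ : ℝ) + 1) ^ b :=
    Real.rpow_le_rpow (by linarith) (Nat.lt_floor_add_one z).le hb.le
  have e : ∑ n ∈ Icc 1 ⌊z⌋₊, pw b n - z ^ b / b =
      (b * ∑ n ∈ Icc 1 ⌊z⌋₊, pw b n - z ^ b) / b := by
    field_simp
  rw [e, abs_div, abs_of_pos hb, div_le_iff₀ hb, abs_le]
  constructor <;> linarith

end

end Pool.Agent.H6.KW
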